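import Mathlib

/-!
The function field of the triple product of the curve `w ^ 2 = x ^ 4 + 1`, and the linear
systems.
-/

set_option autoImplicit false
set_option linter.unusedSectionVars false
set_option linter.unusedVariables false

namespace Pool.Agent.Lib.MP_55c1e7_ag.CK

/-- Three points `(x i, w i)` of the curve `w ^ 2 = x ^ 4 + 1`, the `x i` algebraically independent
over `k`. -/
structure Pt (k K : Type) [Field k] [Field K] [Algebra k K] where
  x : Fin 3 → K
  w : Fin 3 → K
  ind : AlgebraicIndependent k x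
  sq : ∀ i, w i ^ 2 = x i ^ 4 + 1

/-- `K` is generated by the coordinates. -/
def Pt.Gen {k K : Type} [Field k] [Field K] [Algebra k K] (P : Pt k K) : Prop :=
  IntermediateField.adjoin k (Set.range P.x ∪ Set.range P.w) = ⊤

/-- The field `k(x 0, x 1, x 2)`. -/
noncomputable abbrev Pt.F {k K : Type} [Field k] [Field K] [Algebra k K] (P : Pt k K) :
    IntermediateField k K := IntermediateField.adjoin k (Set.range P.x)

section lists

variable {K : Type} [Field K]

/-- The list `1, x, x ^ 2, w` of a point of the curve. -/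
def lE (x w : K) : Fin 4 → K := ![1, x, x ^ 2, w]

/-- The list of the blow-up of `y = z = 0`. -/
def lyz (y z : K) : Fin 3 → K := ![y, z, y * z]

/-- The list of the blow-up of `y = z = 0` and `x = z = 0`. -/
def lxyz (x y z : K) : Fin 5 → K := ![x * y, x * y * z, y * z, x * z, z]

/-- The list of the blow-up of `y = z = 0` and `x = 3, y = 0`. -/
def l3 (x y z : K) : Fin 5 → K := ![(x - 3) * z, (x - 3) * y * z, y * z, (x - 3) * y, y]

/-- The list of the blow-up of the three curves. -/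
def l4 (x y z : K) : Fin 4 → K := ![(x - 3) * z, (x - 3) * y * z, x * y, x * y * z]

end lists

section models

variable {k K : Type} [Field k] [Field K] [Algebra k K] (P : Pt k K)

/-- The linear system of `X` over the valuation ring. -/
def hXX : Fin 4 × Fin 4 × Fin 4 × Fin 3 × Fin 5 × Fin 5 → K := fun e =>
  lE (P.x 0) (P.w 0) e.1 * lE (P.x 1) (P.w 1) e.2.1 * lE (P.x 2) (P.w 2) e.2.2.1 *
    lyz (P.x 1) (P.x 2) e.2.2.2.1 * lxyz (P.x 0) (P.x 1) (P.x 2) e.2.2.2.2.1 *
    l3 (P.x 0) (P.x 1) (P.x 2) e.2.2.2.2.2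

/-- The linear system of the contraction of `X` and `Y`. -/
def hZ : Fin 4 × Fin 4 × Fin 4 × Fin 5 × Fin 4 → K := fun e =>
  lE (P.x 0) (P.w 0) e.1 * lE (P.x 1) (P.w 1) e.2.1 * lE (P.x 2) (P.w 2) e.2.2.1 *
    lxyz (P.x 0) (P.x 1) (P.x 2) e.2.2.2.1 * l4 (P.x 0) (P.x 1) (P.x 2) e.2.2.2.2

/-- The linear system of `X`. -/
def hX : (Fin 4 × Fin 4 × Fin 4 × Fin 5 × Fin 4) × Fin 3 → K := fun e =>
  hZ P e.1 * lyz (P.x 1) (P.x 2) e.2

/-- The linear system of `Y`. -/
def hY : (Fin 4 × Fin 4 × Fin 4 × Fin 5 × Fin 4) × Fin 3 → K := fun e =>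
  hZ P e.1 * lyz (P.x 0) (P.x 2) e.2

end models

end Pool.Agent.Lib.MP_55c1e7_ag.CK
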