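import Pool.Agent.Lib.MP_55c1e7_ag.CK.Li
import Pool.Agent.Lib.MP_55c1e7_ag.CH.ED

/-!
From `Pt` to `EData`.

`ind`: let `∑ ε, aeval x (r ε) * ∏ i ∈ ε, w i = 0`; the coefficients `aeval x (r ε)` are in `P.F`, so they vanish by
`Pt.li`, so `r ε = 0` by `P.ind`. `alg`: `K` is generated over `k` by the `x i` and the `w i` (`hP`), and the `w i` are
algebraic (integral) over `k(x)`, so `K` is algebraic over `P.F = k(x)`, which is algebraic over
`Algebra.adjoin k (range x)` (fractions).
-/

set_option autoImplicit false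
set_option linter.unusedSectionVars false
set_option linter.unusedVariables false

open scoped IntermediateField.algebraAdjoinAdjoin

namespace Pool.Agent.Lib.MP_55c1e7_ag.CK

private theorem Ed_ind {k K : Type} [Field k] [Field K] [Algebra k K] (h2 : (2 : k) ≠ 0)
    (P : Pt k K) : CH.Ind k P.x P.w := by
  classical
  intro r hr
  have hB := P.li h2
  rw [Fintype.linearIndependent_iff] at hB
  have hmem : ∀ ε, MvPolynomial.aeval P.x (r ε) ∈ P.F := by
    intro ε
    have h1 : MvPolynomial.aeval P.x (r ε) ∈ Algebra.adjoin k (Set.range P.x) := by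
      rw [Algebra.adjoin_range_eq_range_aeval]
      exact ⟨r ε, rfl⟩
    exact IntermediateField.algebra_adjoin_le_adjoin k (Set.range P.x) h1
  have h3 := hB (fun ε => ⟨MvPolynomial.aeval P.x (r ε), hmem ε⟩) (by
    rw [← hr]
    refine Finset.sum_congr rfl (fun ε _ => ?_)
    rw [Algebra.smul_def]
    rfl)
  funext ε
  have h4 : MvPolynomial.aeval P.x (r ε) = 0 := congrArg Subtype.val (h3 ε)
  exact (algebraicIndependent_iff.1 P.ind) _ h4

private theorem Ed_alg {k K : Type} [Field k] [Field K] [Algebra k K]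
    (P : Pt k K) (hP : P.Gen) : Algebra.IsAlgebraic (Algebra.adjoin k (Set.range P.x)) K := by
  classical
  have h1 : (IntermediateField.adjoin P.F (Set.range P.w)) = ⊤ := by
    have h2 : (IntermediateField.adjoin P.F (Set.range P.w)).restrictScalars k = ⊤ := by
      rw [IntermediateField.adjoin_adjoin_left]
      exact hP
    rw [eq_top_iff]
    intro z _
    have h3 : z ∈ (IntermediateField.adjoin P.F (Set.range P.w)).restrictScalars k := by
      rw [h2]
      exact IntermediateField.mem_top
    exact h3
  have h4 : Algebra.IsAlgebraic P.F (IntermediateField.adjoin P.F (Set.range P.w)) := by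
    apply IntermediateField.isAlgebraic_adjoin
    rintro _ ⟨i, rfl⟩
    have hx : P.x i ∈ P.F := IntermediateField.subset_adjoin k _ ⟨i, rfl⟩
    refine ⟨Polynomial.X ^ 2 - Polynomial.C (⟨P.x i, hx⟩ ^ 4 + 1), ?_, ?_⟩
    · exact Polynomial.monic_X_pow_sub_C _ two_ne_zero
    · rw [Polynomial.eval₂_sub, Polynomial.eval₂_pow, Polynomial.eval₂_X, Polynomial.eval₂_C, P.sq i]
      exact sub_self _
  have h5 : Algebra.IsAlgebraic P.F K := by
    constructor
    intro z
    have hz : z ∈ IntermediateField.adjoin P.F (Set.range P.w) := by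
      rw [h1]
      exact IntermediateField.mem_top
    have h6 := h4.isAlgebraic ⟨z, hz⟩
    exact (isAlgebraic_algHom_iff (IntermediateField.val
      (IntermediateField.adjoin P.F (Set.range P.w))) (RingHom.injective _)).2 h6
  have : IsFractionRing (Algebra.adjoin k (Set.range P.x))
      (IntermediateField.adjoin k (Set.range P.x)) := inferInstance
  exact (IsFractionRing.comap_isAlgebraic_iff
    (K := IntermediateField.adjoin k (Set.range P.x))).2 h5

theorem edata_of_pt {k K : Type} [Field k] [Field K] [Algebra k K] (h2 : (2 : k) ≠ 0)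
    (P : Pt k K) (hP : P.Gen) : ∃ D : CH.EData k K, D.x = P.x ∧ D.w = P.w :=
  ⟨⟨P.x, P.w, P.sq, Ed_ind h2 P, Ed_alg P hP⟩, rfl, rfl⟩

end Pool.Agent.Lib.MP_55c1e7_ag.CK
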