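import Pool.Agent.Lib.MP_55c1e7_ag.CK.Cht
import Pool.Agent.Lib.MP_55c1e7_ag.CG.Model

/-!
Charts of the projective models, comparison of projective models.
-/

set_option autoImplicit false
set_option linter.unusedSectionVars false
set_option linter.unusedVariables false

open CategoryTheory CategoryTheory.Limits AlgebraicGeometry TensorProduct MP55c1e7.CG

namespace Pool.Agent.Lib.MP_55c1e7_ag.CK

section pm

variable (R : Type) {K : Type} [CommRing R] [Field K] [Algebra R K] {ι κ : Type}

/-- The charts of the projective model. -/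
noncomputable def pmCharts (h : ι → K) (hh : ∀ i, h i ≠ 0) :
    Charts (PM.toSpec R h) (fun i => chart R h i) where
  j := fun i => chartι R (hh i)
  isOpen := fun i => inferInstance
  comp := fun i => chartι_toSpec R (hh i)
  gen_eq := fun i i' => genι_eq R h (hh i) (hh i')
  cover := fun x => by
    obtain ⟨i, _, y, hy⟩ := PM.exists_chart R h x
    exact ⟨i, y, hy⟩

theorem chart_le_locA (h : ι → K) (hh : ∀ i, h i ≠ 0) (i j : ι) :
    chart R h j ≤ locA (chart R h i) (h j / h i) (Algebra.subset_adjoin ⟨j, rfl⟩) := by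
  unfold chart
  rw [Algebra.adjoin_le_iff]
  rintro _ ⟨a, rfl⟩
  refine ⟨1, ?_⟩
  have h1 : (h j / h i) ^ 1 * (h a / h j) = h a / h i := by
    have := hh i
    have := hh j
    field_simp
  rw [h1]
  exact Algebra.subset_adjoin ⟨a, rfl⟩

/-- The charts of a covering subfamily (unit ideal form). -/
theorem pm_sub (h : ι → K) (hh : ∀ i, h i ≠ 0) [IsSeparated (PM.toSpec R h)] {γ : Type}
    (I : γ → ι)
    (hI : ∀ i, Ideal.span (Set.range fun g => chartElt R h i (I g)) = ⊤) :
    Nonempty (Charts (PM.toSpec R h) (fun g => chart R h (I g))) :=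
  ⟨(pmCharts R h hh).sub I ((pmCharts R h hh).cover_sub I (fun i g => h (I g) / h i)
    (fun i g => Algebra.subset_adjoin ⟨I g, rfl⟩) hI (fun i g _ => chart_le_locA R h hh i (I g)))⟩

/-- The fractional ideal generated by `g` is invertible on the chart `i`. -/
def Prin [Fintype κ] (h : ι → K) (g : κ → K) (i : ι) : Prop :=
  ∃ n : κ → K, (∀ m b, n m * g b ∈ chart R h i) ∧ ∑ m, n m * g m = 1

theorem pm_mul_iso [Fintype κ] (h : ι → K) (g : κ → K) (hh : ∀ i, h i ≠ 0) (hg : ∀ b, g b ≠ 0)
    [IsSeparated (PM.toSpec R h)] [IsSeparated (PM.toSpec R (fun p : ι × κ => h p.1 * g p.2))]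
    (hp : ∀ i, Prin R h g i) :
    ∃ e : PM R h ≅ PM R (fun p : ι × κ => h p.1 * g p.2),
      e.hom ≫ PM.toSpec R (fun p : ι × κ => h p.1 * g p.2) = PM.toSpec R h := by
  choose n hn hn1 using hp
  have hhg : ∀ p : ι × κ, h p.1 * g p.2 ≠ 0 := fun p => mul_ne_zero (hh _) (hg _)
  refine (pmCharts R h hh).iso_of_inv (pmCharts R (fun p : ι × κ => h p.1 * g p.2) hhg)
    ?_ (fun i m => n i m * g m) (fun i m => hn i m m) hn1 ?_
  · intro i b
    change Algebra.adjoin R _ ≤ _
    rw [Algebra.adjoin_le_iff]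
    rintro _ ⟨a, rfl⟩
    refine Algebra.subset_adjoin ⟨(a, b), ?_⟩
    have := hh i
    have := hg b
    change (h a * g b) / (h i * g b) = h a / h i
    field_simp
  · intro i m hm
    change Algebra.adjoin R _ ≤ _
    rw [Algebra.adjoin_le_iff]
    rintro _ ⟨⟨a, b⟩, rfl⟩
    refine ⟨1, ?_⟩
    have h1 : (n i m * g m) ^ 1 * ((h a * g b) / (h i * g m)) = (h a / h i) * (n i m * g b) := by
      have := hh i
      have := hg m
      field_simp
    change (n i m * g m) ^ 1 * ((h a * g b) / (h i * g m)) ∈ chart R h i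
    rw [h1]
    exact mul_mem (Algebra.subset_adjoin ⟨a, rfl⟩) (hn i m b)

theorem pm_congr_iso (h : ι → K) (g : κ → K) (hh : ∀ i, h i ≠ 0) (hg : ∀ b, g b ≠ 0)
    [IsSeparated (PM.toSpec R h)] [IsSeparated (PM.toSpec R g)] (e : ι ≃ κ)
    (he : ∀ i, h i = g (e i)) :
    ∃ e : PM R h ≅ PM R g, e.hom ≫ PM.toSpec R g = PM.toSpec R h := by
  let d : Charts (PM.toSpec R g) (fun i => chart R g (e i)) :=
    (pmCharts R g hg).sub e (fun x => by
      obtain ⟨b, y, hy⟩ := (pmCharts R g hg).cover x
      obtain ⟨i, rfl⟩ := e.surjective b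
      exact ⟨i, y, hy⟩)
  refine (pmCharts R h hh).iso_of_eq d ?_
  intro i
  unfold chart
  congr 1
  ext x
  constructor
  · rintro ⟨a, rfl⟩
    exact ⟨e a, by simp only [he]⟩
  · rintro ⟨b, rfl⟩
    obtain ⟨a, rfl⟩ := e.surjective b
    exact ⟨a, by simp only [he]⟩

theorem bc_chart (k : Type) [Field k] [Algebra R k] [Algebra k K] [IsScalarTower R k K]
    (h : ι → K) (i : ι) : bc k (chart R h i) = chart k h i := by
  unfold bc chart
  apply le_antisymm
  · rw [Algebra.adjoin_le_iff]
    intro x hx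
    have h1 : Algebra.adjoin R (Set.range fun j => h j / h i) ≤
        (Algebra.adjoin k (Set.range fun j => h j / h i)).restrictScalars R := by
      rw [Algebra.adjoin_le_iff]
      intro y hy
      exact Algebra.subset_adjoin hy
    exact h1 hx
  · exact Algebra.adjoin_mono Algebra.subset_adjoin

theorem pm_baseChange (k : Type) [Field k] [Algebra R k] [Algebra k K] [IsScalarTower R k K]
    [IsDomain R] [IsFractionRing R k] (h : ι → K) (hh : ∀ i, h i ≠ 0)
    [IsSeparated (PM.toSpec R h)] [IsSeparated (PM.toSpec k h)] :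
    ∃ e : pullback (PM.toSpec R h) (Spec.map (CommRingCat.ofHom (algebraMap R k))) ≅ PM k h,
      e.hom ≫ PM.toSpec k h = pullback.snd (PM.toSpec R h)
        (Spec.map (CommRingCat.ofHom (algebraMap R k))) := by
  obtain ⟨c⟩ := (pmCharts R h hh).baseChange (k := k)
  exact c.iso_of_eq (pmCharts k h hh) (fun i => bc_chart R k h i)

end pm

end Pool.Agent.Lib.MP_55c1e7_ag.CK
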