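import Pool.Agent.Lib.MP_55c1e7_ag.CK.Join
import Pool.Agent.Lib.MP_55c1e7_ag.Cech

/-!
A separated scheme with charts in a field is charted.
-/

set_option autoImplicit false
set_option linter.unusedSectionVars false
set_option linter.unusedVariables false

open CategoryTheory CategoryTheory.Limits AlgebraicGeometry TensorProduct

namespace Pool.Agent.Lib.MP_55c1e7_ag.CK

section join

variable {R K : Type} [CommRing R] [Field K] [Algebra R K]

theorem exists_join {X : Scheme.{0}} {f : X ⟶ Spec (CommRingCat.of R)} [IsSeparated f]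
    {Lam : Type} {A : Lam → Subalgebra R K} (c : Charts f A) (S : Finset Lam)
    (hS : S.Nonempty) : ∀ C : Subalgebra R K, C = ⨆ l ∈ S, A l →
      ∃ j : Spec (CommRingCat.of C) ⟶ X, ∃ _ : IsOpenImmersion j, j ≫ f = str C ∧
        (∀ i, gen C ≫ j = gen (A i) ≫ c.j i) ∧
        j.opensRange = S.inf (fun l => (c.j l).opensRange) := by
  induction hS using Finset.Nonempty.cons_induction with
  | singleton a =>
    intro C hC
    rw [Finset.iSup_singleton] at hC
    subst hC
    refine ⟨c.j a, c.isOpen a, c.comp a, fun i => c.gen_eq a i, ?_⟩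
    rw [Finset.inf_singleton]
  | cons a S ha hS ih =>
    intro C hC
    have hC' : C = (⨆ l ∈ S, A l) ⊔ A a := by
      classical
      rw [hC, Finset.cons_eq_insert, Finset.iSup_insert, sup_comm]
    clear hC
    subst hC'
    obtain ⟨j, hj, hjf, hjg, hjr⟩ := ih _ rfl
    have ha' := c.isOpen a
    have hpb := isPullback_sup f j (c.j a) hjf (c.comp a) (hjg a)
    have h1 : IsOpenImmersion (incl (le_sup_left : (⨆ l ∈ S, A l) ≤ (⨆ l ∈ S, A l) ⊔ A a)) :=
      MorphismProperty.of_isPullback (P := @IsOpenImmersion) hpb.flip inferInstance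
    refine ⟨incl le_sup_left ≫ j, inferInstance, ?_, ?_, ?_⟩
    · rw [Category.assoc, hjf, incl_str]
    · intro i
      rw [← Category.assoc, gen_incl, hjg i]
    · rw [Finset.inf_cons, ← hjr]
      ext x
      constructor
      · rintro ⟨y, rfl⟩
        refine ⟨⟨incl le_sup_right y, ?_⟩, ⟨incl le_sup_left y, ?_⟩⟩
        · rw [← Scheme.Hom.comp_apply, ← hpb.w]
        · rw [← Scheme.Hom.comp_apply]
      · rintro ⟨⟨y, hy⟩, ⟨z, hz⟩⟩
        obtain ⟨q, hq, -⟩ := Scheme.exists_preimage_of_isPullback hpb z y (by rw [hz, hy])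
        refine ⟨q, ?_⟩
        rw [Scheme.Hom.comp_apply, hq, hz]

end join

section ev

variable {k K : Type} [Field k] [Field K] [Algebra k K] {X : Scheme.{0}}

/-- Evaluation at a `K`-valued point. -/
noncomputable def ev (η : Spec (CommRingCat.of K) ⟶ X) (U : X.Opens) (hU : ⊤ ≤ η ⁻¹ᵁ U) :
    Γ(X, U) →+* K :=
  (η.appLE U ⊤ hU ≫ (Scheme.ΓSpecIso (CommRingCat.of K)).hom).hom

theorem ev_res (η : Spec (CommRingCat.of K) ⟶ X) (U V : X.Opens) (hU : ⊤ ≤ η ⁻¹ᵁ U)
    (hV : ⊤ ≤ η ⁻¹ᵁ V) (i : V ≤ U) (s : Γ(X, U)) :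
    ev η V hV (X.presheaf.map (homOfLE i).op s) = ev η U hU s := by
  have h := Scheme.Hom.map_appLE η hV (homOfLE i).op
  unfold ev
  rw [← h, Category.assoc]
  rfl

theorem ev_alg (f : X ⟶ Spec (CommRingCat.of k)) (η : Spec (CommRingCat.of K) ⟶ X)
    (hη : η ≫ f = Spec.map (CommRingCat.ofHom (algebraMap k K))) (U : X.Opens)
    (hU : ⊤ ≤ η ⁻¹ᵁ U) (a : k) :
    ev η U hU (BadRed.resTop (BadRed.scalars f a) U) = algebraMap k K a := by
  unfold BadRed.resTop
  rw [ev_res η ⊤ U le_rfl hU le_top]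
  have h2 : η.appLE ⊤ ⊤ le_rfl = η.appTop := Scheme.Hom.appLE_eq_app η
  have h1 : (Scheme.ΓSpecIso (CommRingCat.of k)).inv ≫ f.appTop ≫ η.appTop ≫
      (Scheme.ΓSpecIso (CommRingCat.of K)).hom = CommRingCat.ofHom (algebraMap k K) := by
    have h3 : f.appTop ≫ η.appTop = (η ≫ f).appTop := (Scheme.Hom.comp_appTop η f).symm
    rw [← Category.assoc f.appTop, h3, hη, Scheme.ΓSpecIso_naturality, Iso.inv_hom_id_assoc]
  have h4 : ev η ⊤ le_rfl (BadRed.scalars f a) =
      ((Scheme.ΓSpecIso (CommRingCat.of k)).inv ≫ f.appTop ≫ η.appTop ≫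
      (Scheme.ΓSpecIso (CommRingCat.of K)).hom).hom a := by
    unfold ev BadRed.scalars
    rw [h2]
    rfl
  rw [h4, h1]
  rfl

theorem ev_open (C : Subalgebra k K) (j : Spec (CommRingCat.of C) ⟶ X) [IsOpenImmersion j]
    (η : Spec (CommRingCat.of K) ⟶ X) (hη : gen C ≫ j = η) (U : X.Opens)
    (hjU : j.opensRange = U) (hU : ⊤ ≤ η ⁻¹ᵁ U) :
    Function.Injective (ev η U hU) ∧ (ev η U hU).range = C.toSubring := by
  subst hη
  subst hjU
  have h0 : ⊤ ≤ j ⁻¹ᵁ j.opensRange := fun x _ => ⟨x, rfl⟩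
  have h1 : IsIso (j.appLE j.opensRange ⊤ h0) := by
    have h2 : IsIso (j.app j.opensRange) := j.isIso_app _ le_rfl
    have h3 : IsIso ((Spec (CommRingCat.of C)).presheaf.map (homOfLE h0).op) := by
      have h4 : IsIso (homOfLE h0) := by
        have h5 : j ⁻¹ᵁ j.opensRange = ⊤ := le_antisymm le_top h0
        have h6 : homOfLE h0 = eqToHom h5.symm := Subsingleton.elim _ _
        rw [h6]
        infer_instance
      infer_instance
    exact inferInstanceAs (IsIso (j.app _ ≫ _))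
  have h2 : ((gen C ≫ j).appLE j.opensRange ⊤ hU ≫ (Scheme.ΓSpecIso (CommRingCat.of K)).hom) =
      (j.appLE j.opensRange ⊤ h0 ≫ (Scheme.ΓSpecIso (CommRingCat.of C)).hom) ≫
        CommRingCat.ofHom C.val.toRingHom := by
    have h3 : j.appLE j.opensRange ⊤ h0 ≫ (gen C).appLE ⊤ ⊤ le_rfl =
        (gen C ≫ j).appLE j.opensRange ⊤ hU := Scheme.Hom.appLE_comp_appLE _ _ _ _ _ _ _
    have h4 : (gen C).appLE ⊤ ⊤ le_rfl = (gen C).appTop := Scheme.Hom.appLE_eq_app _
    have h5 : (gen C).appTop ≫ (Scheme.ΓSpecIso (CommRingCat.of K)).hom =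
      (Scheme.ΓSpecIso (CommRingCat.of C)).hom ≫ CommRingCat.ofHom C.val.toRingHom :=
      Scheme.ΓSpecIso_naturality _
    rw [← h3, h4, Category.assoc, Category.assoc, h5]
  have h3 : Function.Bijective (j.appLE j.opensRange ⊤ h0 ≫
      (Scheme.ΓSpecIso (CommRingCat.of C)).hom).hom :=
    ConcreteCategory.bijective_of_isIso (j.appLE j.opensRange ⊤ h0 ≫
      (Scheme.ΓSpecIso (CommRingCat.of C)).hom)
  have h4 : ∀ s, ev (gen C ≫ j) j.opensRange hU s =
      (((j.appLE j.opensRange ⊤ h0 ≫ (Scheme.ΓSpecIso (CommRingCat.of C)).hom).hom s : C) : K) := by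
    intro s
    unfold ev
    rw [h2]
    rfl
  constructor
  · intro s t hst
    rw [h4, h4] at hst
    exact h3.1 (Subtype.ext hst)
  · ext x
    constructor
    · rintro ⟨s, rfl⟩
      rw [h4]
      exact Subtype.property _
    · intro hx
      obtain ⟨s, hs⟩ := h3.2 ⟨x, hx⟩
      refine ⟨s, ?_⟩
      rw [h4, hs]

theorem gen_str (C : Subalgebra k K) :
    gen C ≫ str C = Spec.map (CommRingCat.ofHom (algebraMap k K)) := by
  unfold gen str
  rw [← Spec.map_comp]
  rfl

/-- A separated scheme with charts in a field is charted. -/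
theorem Charts.charted {f : X ⟶ Spec (CommRingCat.of k)} [IsSeparated f]
    {Lam : Type} {A : Lam → Subalgebra k K} (c : Charts f A) :
    Nonempty (BadRed.Charted f A) := by
  classical
  let V : Lam → X.Opens := fun l => (c.j l).opensRange
  have hj : ∀ S : BadRed.NF Lam, ∃ j : Spec (CommRingCat.of (BadRed.cechRing A S)) ⟶ X,
      ∃ _ : IsOpenImmersion j, j ≫ f = str (BadRed.cechRing A S) ∧
        (∀ i, gen (BadRed.cechRing A S) ≫ j = gen (A i) ≫ c.j i) ∧
        j.opensRange = BadRed.interV V S :=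
    fun S => exists_join c S.1 S.2 _ rfl
  choose j hjo hjf hjg hjr using hj
  have hηS : ∀ S T : BadRed.NF Lam, gen (BadRed.cechRing A S) ≫ j S =
      gen (BadRed.cechRing A T) ≫ j T := by
    intro S T
    obtain ⟨i, hi⟩ := S.2
    rw [hjg S i, hjg T i]
  have hU : ∀ S T : BadRed.NF Lam, ⊤ ≤ (gen (BadRed.cechRing A T) ≫ j T) ⁻¹ᵁ
      BadRed.interV V S := by
    intro S T x _
    rw [← hηS S T, ← hjr S]
    exact ⟨gen (BadRed.cechRing A S) x, rfl⟩
  have hpU : ∀ S T : BadRed.NF Lam, ∀ h : S ≤ T, ∀ s : Γ(X, BadRed.interV V S),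
      ev (gen (BadRed.cechRing A T) ≫ j T) (BadRed.interV V T) (hU T T)
        (X.presheaf.map (homOfLE (BadRed.interV_anti V h)).op s) =
      ev (gen (BadRed.cechRing A S) ≫ j S) (BadRed.interV V S) (hU S S) s := by
    intro S T h s
    rw [ev_res (gen (BadRed.cechRing A T) ≫ j T) (BadRed.interV V S) (BadRed.interV V T)
      (hU S T) (hU T T)]
    have h1 : ∀ η η' : Spec (CommRingCat.of K) ⟶ X, ∀ e : η = η', ∀ h h',
        ev η (BadRed.interV V S) h s = ev η' (BadRed.interV V S) h' s := by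
      intro η η' e h h'
      subst e
      rfl
    exact h1 _ _ (hηS T S) _ _
  have hcov : ⨆ l, V l = ⊤ := by
    rw [eq_top_iff]
    intro x _
    obtain ⟨l, y, rfl⟩ := c.cover x
    rw [TopologicalSpace.Opens.mem_iSup]
    exact ⟨l, y, rfl⟩
  exact ⟨{
    V := V
    cover := hcov
    affine := fun S => by
      rw [← hjr S]
      exact isAffineOpen_opensRange (j S)
    phi := fun S => ev (gen (BadRed.cechRing A S) ≫ j S) (BadRed.interV V S) (hU S S)
    inj := fun S => (ev_open _ (j S) _ rfl _ (hjr S) _).1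
    range := fun S => (ev_open _ (j S) _ rfl _ (hjr S) _).2
    res := hpU
    alg := fun S a => ev_alg f _ (by rw [Category.assoc, hjf, gen_str]) _ _ a }⟩

end ev

end Pool.Agent.Lib.MP_55c1e7_ag.CK
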