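import Pool.Agent.Lib.MP_55c1e7_ag.CK.Model

/-!
Comparison of schemes with charts in a field, and base change.
-/

set_option autoImplicit false
set_option linter.unusedSectionVars false
set_option linter.unusedVariables false

open CategoryTheory CategoryTheory.Limits AlgebraicGeometry

namespace Pool.Agent.Lib.MP_55c1e7_ag.CK

section comparison

variable {R K : Type} [CommRing R] [Field K] [Algebra R K]

theorem isOpenImmersion_incl_of_eq {A L : Subalgebra R K} (h : A ≤ L) {s : K} (hs : s ∈ A)
    (h0 : s ≠ 0) (hL : L = locA A s hs) : IsOpenImmersion (incl h) := by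
  subst hL
  exact isOpenImmersion_incl hs h0

theorem exists_notMem_of_sum {R' : Type} [CommRing R'] {κ : Type} [Fintype κ] (s : κ → R')
    (hsum : ∑ b, s b = 1) (p : Ideal R') [hp : p.IsPrime] : ∃ b, s b ∉ p := by
  by_contra hcon
  push Not at hcon
  apply hp.ne_top
  rw [Ideal.eq_top_iff_one, ← hsum]
  exact Ideal.sum_mem _ fun b _ => hcon b

/-- Two separated schemes over `Spec R` with comparable charts are isomorphic. -/
theorem Charts.iso_of_inv {X Y : Scheme.{0}} {f : X ⟶ Spec (CommRingCat.of R)}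
    {g : Y ⟶ Spec (CommRingCat.of R)} [IsSeparated f] [IsSeparated g] {ι κ : Type} [Fintype κ]
    {A : ι → Subalgebra R K} {B : ι × κ → Subalgebra R K} (c : Charts f A) (d : Charts g B)
    (hAB : ∀ i b, A i ≤ B (i, b)) (s : ι → κ → K) (hs : ∀ i b, s i b ∈ A i)
    (hsum : ∀ i, ∑ b, s i b = 1)
    (hB : ∀ i b, s i b ≠ 0 → B (i, b) ≤ locA (A i) (s i b) (hs i b)) :
    ∃ e : X ≅ Y, e.hom ≫ g = f := by
  classical
  have hX := c.isReduced
  have hY := d.isReduced
  let J : Type := {p : ι × κ // s p.1 p.2 ≠ 0}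
  let L : J → Subalgebra R K := fun p => locA (A p.1.1) (s p.1.1 p.1.2) (hs _ _)
  let jX : ∀ p : J, Spec (CommRingCat.of (L p)) ⟶ X := fun p =>
    incl (le_locA (hs p.1.1 p.1.2)) ≫ c.j p.1.1
  let jY : ∀ p : J, Spec (CommRingCat.of (L p)) ⟶ Y := fun p =>
    incl (hB p.1.1 p.1.2 p.2) ≫ d.j p.1
  have hoX : ∀ p : J, IsOpenImmersion (jX p) := by
    intro p
    have h1 := isOpenImmersion_incl (hs p.1.1 p.1.2) p.2
    have h2 := c.isOpen p.1.1
    exact inferInstanceAs (IsOpenImmersion (incl _ ≫ c.j p.1.1))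
  have hoY : ∀ p : J, IsOpenImmersion (jY p) := by
    intro p
    have h1 : IsOpenImmersion (incl (hB p.1.1 p.1.2 p.2)) := by
      refine isOpenImmersion_incl_of_eq _ (hAB p.1.1 p.1.2 (hs p.1.1 p.1.2)) p.2 ?_
      exact le_antisymm (locA_le_locA _ (hAB p.1.1 p.1.2)) (locA_le _ _ (hB p.1.1 p.1.2 p.2))
    have h2 := d.isOpen p.1
    exact inferInstanceAs (IsOpenImmersion (incl _ ≫ d.j p.1))
  by_cases hne : Nonempty ι
  swap
  · have h1 : IsEmpty X := ⟨fun x => (c.cover x).elim fun i _ => hne ⟨i⟩⟩
    have h2 : IsEmpty Y := ⟨fun x => (d.cover x).elim fun i _ => hne ⟨i.1⟩⟩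
    exact ⟨(isInitialOfIsEmpty (X := X)).coconePointUniqueUpToIso (isInitialOfIsEmpty (X := Y)),
      (isInitialOfIsEmpty (X := X)).hom_ext _ _⟩
  obtain ⟨i₀⟩ := hne
  have hb : ∃ b : κ, s i₀ b ≠ 0 := by
    by_contra hcon
    push Not at hcon
    have := hsum i₀
    rw [Finset.sum_eq_zero fun b _ => hcon b] at this
    exact zero_ne_one this
  obtain ⟨b₀, hb₀⟩ := hb
  obtain ⟨e, he, -⟩ := iso_of_common_cover (S := Spec (CommRingCat.of R)) (X := X) (Y := Y)
    (T := Spec (CommRingCat.of K)) f g (gen (A i₀) ≫ c.j i₀) (gen (B (i₀, b₀)) ≫ d.j (i₀, b₀))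
    (fun p => Spec (CommRingCat.of (L p))) jX jY (fun p => gen (L p))
    (fun p => by
      change gen (L p) ≫ incl _ ≫ c.j p.1.1 = _
      rw [← Category.assoc, gen_incl, c.gen_eq])
    (fun p => by
      change gen (L p) ≫ incl _ ≫ d.j p.1 = _
      rw [← Category.assoc, gen_incl, d.gen_eq])
    (fun p => by
      change (incl _ ≫ c.j p.1.1) ≫ f = (incl _ ≫ d.j p.1) ≫ g
      rw [Category.assoc, Category.assoc, c.comp, d.comp, incl_str, incl_str])
    (fun x => by
      obtain ⟨i, y, rfl⟩ := c.cover x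
      obtain ⟨b, hb⟩ := exists_notMem_of_sum (fun b => (⟨s i b, hs i b⟩ : A i))
        (by apply Subtype.ext; rw [AddSubmonoidClass.coe_finsetSum]; exact hsum i) y.asIdeal (hp := y.isPrime)
      have h0 : s i b ≠ 0 := by
        intro h0
        apply hb
        have h5 : (⟨s i b, hs i b⟩ : A i) = 0 := Subtype.ext h0
        rw [h5]
        exact y.asIdeal.zero_mem
      obtain ⟨q, hq⟩ := mem_range_incl (hs i b) h0 y hb
      refine ⟨⟨(i, b), h0⟩, q, ?_⟩
      change (incl _ ≫ c.j i) q = c.j i y
      rw [Scheme.Hom.comp_apply, hq])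
    (fun x => by
      obtain ⟨⟨i, b'⟩, y, rfl⟩ := d.cover x
      obtain ⟨b, hb⟩ := exists_notMem_of_sum
        (fun b => (⟨s i b, hAB i b' (hs i b)⟩ : B (i, b')))
        (by apply Subtype.ext; rw [AddSubmonoidClass.coe_finsetSum]; exact hsum i) y.asIdeal (hp := y.isPrime)
      have h0 : s i b ≠ 0 := by
        intro h0
        apply hb
        have h5 : (⟨s i b, hAB i b' (hs i b)⟩ : B (i, b')) = 0 := Subtype.ext h0
        rw [h5]
        exact y.asIdeal.zero_mem
      let p : J := ⟨(i, b), h0⟩
      obtain ⟨q, hq⟩ := mem_range_of_le g (B := B (i, b')) (L := L p) (d.j (i, b')) (jY p)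
        (d.comp _) (by
          change (incl _ ≫ d.j p.1) ≫ g = _
          rw [Category.assoc, d.comp, incl_str]) (by
          change _ = gen (L p) ≫ incl _ ≫ d.j p.1
          rw [← Category.assoc, gen_incl, d.gen_eq]) (hAB i b' (hs i b)) h0
        (locA_le_locA _ (hAB i b')) y hb
      exact ⟨p, q, hq⟩)
  exact ⟨e, he⟩

/-- Two separated schemes over `Spec R` with the same charts are isomorphic. -/
theorem Charts.iso_of_eq {X Y : Scheme.{0}} {f : X ⟶ Spec (CommRingCat.of R)}
    {g : Y ⟶ Spec (CommRingCat.of R)} [IsSeparated f] [IsSeparated g] {ι : Type}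
    {A B : ι → Subalgebra R K} (c : Charts f A) (d : Charts g B) (h : ∀ i, A i = B i) :
    ∃ e : X ≅ Y, e.hom ≫ g = f := by
  obtain rfl : A = B := funext h
  have d' : Charts g (fun p : ι × Unit => A p.1) :=
    { j := fun p => d.j p.1
      isOpen := fun p => d.isOpen p.1
      comp := fun p => d.comp p.1
      gen_eq := fun p q => d.gen_eq p.1 q.1
      cover := fun x => by
        obtain ⟨i, y, hy⟩ := d.cover x
        exact ⟨(i, ()), y, hy⟩ }
  refine c.iso_of_inv d' (fun i b => le_rfl) (fun i b => 1) (fun i b => one_mem _) ?_ ?_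
  · intro i
    simp
  · intro i b _
    exact le_locA _

end comparison

section basechange

variable {R k K : Type} [CommRing R] [Field k] [Field K] [Algebra R k] [Algebra k K]
  [Algebra R K] [IsScalarTower R k K]

/-- The subalgebra generated over a larger field of scalars. -/
def bc (k : Type) {R K : Type} [CommRing R] [Field k] [Field K] [Algebra R k] [Algebra k K]
    [Algebra R K] (A : Subalgebra R K) : Subalgebra k K := Algebra.adjoin k (A : Set K)

theorem le_bc (A : Subalgebra R K) {x : K} (hx : x ∈ A) : x ∈ bc k A :=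
  Algebra.subset_adjoin hx

theorem mem_bc [IsDomain R] [IsFractionRing R k] (A : Subalgebra R K) {x : K} (hx : x ∈ bc k A) :
    ∃ r : R, r ≠ 0 ∧ algebraMap R K r * x ∈ A := by
  unfold bc at hx
  induction hx using Algebra.adjoin_induction with
  | mem x hx => exact ⟨1, one_ne_zero, by rw [map_one, one_mul]; exact hx⟩
  | algebraMap a =>
    obtain ⟨r, s, hs, rfl⟩ := IsFractionRing.div_surjective (A := R) a
    refine ⟨s, nonZeroDivisors.ne_zero hs, ?_⟩
    have hs' : algebraMap R k s ≠ 0 := by
      have := IsFractionRing.injective R k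
      exact (map_ne_zero_iff _ this).2 (nonZeroDivisors.ne_zero hs)
    rw [IsScalarTower.algebraMap_apply R k K, ← map_mul, mul_div_cancel₀ _ hs',
      ← IsScalarTower.algebraMap_apply]
    exact A.algebraMap_mem r
  | add x y hx hy h1 h2 =>
    obtain ⟨r, hr, h1⟩ := h1
    obtain ⟨s, hs, h2⟩ := h2
    refine ⟨r * s, mul_ne_zero hr hs, ?_⟩
    have h3 : algebraMap R K (r * s) * (x + y) = algebraMap R K s * (algebraMap R K r * x) +
        algebraMap R K r * (algebraMap R K s * y) := by
      rw [map_mul]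
      ring
    rw [h3]
    exact add_mem (mul_mem (A.algebraMap_mem s) h1) (mul_mem (A.algebraMap_mem r) h2)
  | mul x y hx hy h1 h2 =>
    obtain ⟨r, hr, h1⟩ := h1
    obtain ⟨s, hs, h2⟩ := h2
    refine ⟨r * s, mul_ne_zero hr hs, ?_⟩
    have h3 : algebraMap R K (r * s) * (x * y) = (algebraMap R K r * x) *
        (algebraMap R K s * y) := by
      rw [map_mul]
      ring
    rw [h3]
    exact mul_mem h1 h2

/-- The inclusion of a subalgebra in its base change. -/
def toBc (k : Type) {R K : Type} [CommRing R] [Field k] [Field K] [Algebra R k] [Algebra k K]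
    [Algebra R K] (A : Subalgebra R K) : A →+* bc k A where
  toFun := fun x => ⟨x.1, Algebra.subset_adjoin x.2⟩
  map_one' := rfl
  map_mul' := fun _ _ => rfl
  map_zero' := rfl
  map_add' := fun _ _ => rfl

theorem isPullback_bc [IsDomain R] [IsFractionRing R k] (A : Subalgebra R K) :
    IsPullback (Spec.map (CommRingCat.ofHom (toBc k A))) (str (bc k A)) (str A)
      (Spec.map (CommRingCat.ofHom (algebraMap R k))) := by
  unfold str
  refine isPullback_SpecMap_of_isPushout _ _ _ _ ?_
  let _ := (toBc k A).toAlgebra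
  have hkK : Function.Injective (algebraMap R K) := by
    rw [IsScalarTower.algebraMap_eq R k K]
    exact (algebraMap k K).injective.comp (IsFractionRing.injective R k)
  have hloc : IsLocalization ((nonZeroDivisors R).map (algebraMap R A)) (bc k A) := by
    constructor
    constructor
    · rintro ⟨_, r, hr, rfl⟩
      have hr0 : algebraMap R k r ≠ 0 :=
        (map_ne_zero_iff _ (IsFractionRing.injective R k)).2 (nonZeroDivisors.ne_zero hr)
      refine IsUnit.of_mul_eq_one (algebraMap k (bc k A) (algebraMap R k r)⁻¹) ?_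
      apply Subtype.ext
      change algebraMap R K r * algebraMap k K (algebraMap R k r)⁻¹ = 1
      rw [IsScalarTower.algebraMap_apply R k K, ← map_mul, mul_inv_cancel₀ hr0, map_one]
    · rintro ⟨x, hx⟩
      obtain ⟨r, hr, h1⟩ := mem_bc A hx
      refine ⟨(⟨_, h1⟩, ⟨algebraMap R A r, r, mem_nonZeroDivisors_of_ne_zero hr, rfl⟩), ?_⟩
      apply Subtype.ext
      change x * algebraMap R K r = algebraMap R K r * x
      ring
    · intro x y hxy
      refine ⟨1, ?_⟩
      have h0 : toBc k A x = toBc k A y := hxy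
      have h1 : x = y := Subtype.ext (congrArg (fun z : bc k A => (z : K)) h0)
      rw [h1]
  have h := CommRingCat.isPushout_of_isLocalization (R := R) (S := A) (Rₘ := k) (Sₘ := bc k A)
    (algebraMap R A) (algebraMap k (bc k A)) (by
      ext r
      change algebraMap k K (algebraMap R k r) = algebraMap R K r
      rw [← IsScalarTower.algebraMap_apply]) (nonZeroDivisors R)
  exact h

/-- Base change of a scheme with charts. -/
theorem Charts.baseChange [IsDomain R] [IsFractionRing R k] {X : Scheme.{0}}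
    {f : X ⟶ Spec (CommRingCat.of R)} {ι : Type} {A : ι → Subalgebra R K} (c : Charts f A) :
    Nonempty (Charts (pullback.snd f (Spec.map (CommRingCat.ofHom (algebraMap R k))))
      (fun i => bc k (A i))) := by
  let u : Spec (CommRingCat.of k) ⟶ Spec (CommRingCat.of R) :=
    Spec.map (CommRingCat.ofHom (algebraMap R k))
  have hw : ∀ i, (Spec.map (CommRingCat.ofHom (toBc k (A i))) ≫ c.j i) ≫ f =
      str (bc k (A i)) ≫ u := by
    intro i
    rw [Category.assoc, c.comp i]
    exact (isPullback_bc (A i)).w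
  let J : ∀ i, Spec (CommRingCat.of (bc k (A i))) ⟶ pullback f u := fun i =>
    pullback.lift (Spec.map (CommRingCat.ofHom (toBc k (A i))) ≫ c.j i) (str (bc k (A i))) (hw i)
  have hJ1 : ∀ i, J i ≫ pullback.fst f u = Spec.map (CommRingCat.ofHom (toBc k (A i))) ≫ c.j i :=
    fun i => pullback.lift_fst _ _ _
  have hJ2 : ∀ i, J i ≫ pullback.snd f u = str (bc k (A i)) := fun i => pullback.lift_snd _ _ _
  have hpb : ∀ i, IsPullback (J i) (Spec.map (CommRingCat.ofHom (toBc k (A i))))
      (pullback.fst f u) (c.j i) := by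
    intro i
    refine IsPullback.of_right (h₁₂ := pullback.snd f u) (v₁₃ := u) (h₂₂ := f) ?_ (hJ1 i)
      (IsPullback.of_hasPullback f u).flip
    rw [hJ2 i, c.comp i]
    exact (isPullback_bc (A i)).flip
  refine ⟨{ j := J, isOpen := ?_, comp := hJ2, gen_eq := ?_, cover := ?_ }⟩
  · intro i
    have := c.isOpen i
    exact MorphismProperty.of_isPullback (P := @IsOpenImmersion) (hpb i).flip inferInstance
  · intro i i'
    have h0 : ∀ i, gen (bc k (A i)) ≫ Spec.map (CommRingCat.ofHom (toBc k (A i))) =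
        gen (A i) := by
      intro i
      unfold gen
      rw [← Spec.map_comp]
      rfl
    have h1 : ∀ i, gen (bc k (A i)) ≫ str (bc k (A i)) =
        Spec.map (CommRingCat.ofHom (algebraMap k K)) := by
      intro i
      unfold gen str
      rw [← Spec.map_comp]
      rfl
    apply pullback.hom_ext
    · rw [Category.assoc, Category.assoc, hJ1, hJ1, ← Category.assoc, ← Category.assoc, h0, h0]
      exact c.gen_eq i i'
    · rw [Category.assoc, Category.assoc, hJ2, hJ2, h1, h1]
  · intro x
    obtain ⟨i, y, hy⟩ := c.cover (pullback.fst f u x)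
    obtain ⟨q, hq, -⟩ := Scheme.exists_preimage_of_isPullback (hpb i) x y hy.symm
    exact ⟨i, q, hq⟩

end basechange

end Pool.Agent.Lib.MP_55c1e7_ag.CK
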