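import Pool.Agent.Lib.MP_55c1e7_ag.CK.Defs

/-!
Existence of the function field.

* `exists_pt`: `F₀ = FractionRing (MvPolynomial (Fin 3) k)`, `Ω = AlgebraicClosure F₀`, `w i` a square root of
  `x i ^ 4 + 1` in `Ω` (`IsAlgClosed.exists_pow_nat_eq`), `K = IntermediateField.adjoin k (range x ∪ range w) ⊆ Ω`.
-/

set_option autoImplicit false
set_option linter.unusedSectionVars false
set_option linter.unusedVariables false

namespace Pool.Agent.Lib.MP_55c1e7_ag.CK

/-- A family in an extension, restricted to the intermediate field it generates. -/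
private theorem Exist_aux {k Ω : Type} [Field k] [Field Ω] [Algebra k Ω] (x w : Fin 3 → Ω)
    (ind : AlgebraicIndependent k x) (sq : ∀ i, w i ^ 2 = x i ^ 4 + 1) :
    ∃ (K : Type) (_ : Field K) (_ : Algebra k K) (P : Pt k K), P.Gen := by
  let L : IntermediateField k Ω := IntermediateField.adjoin k (Set.range x ∪ Set.range w)
  have hx : ∀ i, x i ∈ L := fun i =>
    IntermediateField.subset_adjoin k _ (Or.inl ⟨i, rfl⟩)
  have hw : ∀ i, w i ∈ L := fun i =>
    IntermediateField.subset_adjoin k _ (Or.inr ⟨i, rfl⟩)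
  let x' : Fin 3 → L := fun i => ⟨x i, hx i⟩
  let w' : Fin 3 → L := fun i => ⟨w i, hw i⟩
  have hind : AlgebraicIndependent k x' := by
    have h : AlgebraicIndependent k (L.val ∘ x') := ind
    exact AlgebraicIndependent.of_comp L.val h
  have hsq : ∀ i, w' i ^ 2 = x' i ^ 4 + 1 := fun i => Subtype.ext (sq i)
  refine ⟨L, inferInstance, inferInstance, ⟨x', w', hind, hsq⟩, ?_⟩
  change IntermediateField.adjoin k (Set.range x' ∪ Set.range w') = ⊤
  apply IntermediateField.map_injective L.val
  rw [IntermediateField.adjoin_map]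
  have him : (L.val : L → Ω) '' (Set.range x' ∪ Set.range w') = Set.range x ∪ Set.range w := by
    rw [Set.image_union, ← Set.range_comp, ← Set.range_comp]
    rfl
  rw [him]
  ext z
  constructor
  · intro hz
    exact ⟨⟨z, hz⟩, trivial, rfl⟩
  · rintro ⟨y, -, rfl⟩
    exact y.2

theorem exists_pt (k : Type) [Field k] : ∃ (K : Type) (_ : Field K) (_ : Algebra k K)
    (P : Pt k K), P.Gen := by
  let F₀ := FractionRing (MvPolynomial (Fin 3) k)
  let Ω := AlgebraicClosure F₀
  let f : MvPolynomial (Fin 3) k →ₐ[k] Ω :=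
    (IsScalarTower.toAlgHom k F₀ Ω).comp (IsScalarTower.toAlgHom k (MvPolynomial (Fin 3) k) F₀)
  have hf : Function.Injective f := by
    have h1 : Function.Injective (algebraMap (MvPolynomial (Fin 3) k) F₀) :=
      IsFractionRing.injective _ _
    have h2 : Function.Injective (algebraMap F₀ Ω) := (algebraMap F₀ Ω).injective
    exact h2.comp h1
  let x : Fin 3 → Ω := fun i => f (MvPolynomial.X i)
  have hx : AlgebraicIndependent k x := by
    have h := (MvPolynomial.algebraicIndependent_X (Fin 3) k).map' hf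
    exact h
  have hw : ∀ i, ∃ z : Ω, z ^ 2 = x i ^ 4 + 1 := fun i =>
    IsAlgClosed.exists_pow_nat_eq _ (by norm_num)
  choose w hw using hw
  exact Exist_aux x w hx hw

end Pool.Agent.Lib.MP_55c1e7_ag.CK
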