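import Pool.Agent.Lib.MP_55c1e7_ag.CK.Pres
import Pool.Agent.Lib.MP_55c1e7_ag.CK.Exist

/-!
Tensor products of the function field with fields.

* `dom_tensor`: let `K'` be a field over `L` with a point `P'` (`exists_pt` for `L`).
  `R₀ = Quad` for `A = MvPolynomial (Fin 3) k`, `q i = X i ^ 4 + 1`, injects into `K` (`inj_of_sq`) with image
  `k[x, w]`, whose fraction field is `K` (`hP`: `IntermediateField.adjoin` = fractions of `Algebra.adjoin`,
  `IsFractionRing`). `L ⊗[k] R₀ ≅ Quad` for `A' = MvPolynomial (Fin 3) L` (base change of polynomial rings and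
  quotients; only a surjection from `Quad` over `L` onto `L ⊗ R₀` is needed together with the map
  `L ⊗ R₀ → K'`: the composition `Quad over L → L ⊗ R₀ → K'` is injective by `inj_of_sq`, so the surjection is
  an isomorphism and `L ⊗ R₀ → K'` is injective). So `L ⊗ R₀` is a domain, and `L ⊗ K` is a localization of
  it (`IsLocalization.tensor`-like instances, localization of a base change; or: two elements of `L ⊗ K` have
  a common denominator `1 ⊗ s`, `s ∈ R₀` nonzero, which is a unit of `L ⊗ K`; and `L ⊗ R₀ → L ⊗ K` is injective by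
  flatness), so it is a domain.
* `dom_tensor_sub`: `L ⊗ A → L ⊗ K` is injective (flatness over the field `k`).
-/

set_option autoImplicit false
set_option linter.unusedSectionVars false
set_option linter.unusedVariables false

open TensorProduct

namespace Pool.Agent.Lib.MP_55c1e7_ag.CK

/-- The coordinate ring of the affine part. -/
private abbrev DomTR (k : Type) [Field k] : Type :=
  Quad (A := MvPolynomial (Fin 3) k) (fun i => MvPolynomial.X i ^ 4 + 1)

private noncomputable abbrev domTx (k : Type) [Field k] (i : Fin 3) : DomTR k :=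
  Ideal.Quotient.mk _ (MvPolynomial.C (MvPolynomial.X i))

private noncomputable abbrev domTw (k : Type) [Field k] (i : Fin 3) : DomTR k :=
  Ideal.Quotient.mk _ (MvPolynomial.X i)

private lemma domT_rel (k : Type) [Field k] (i : Fin 3) :
    domTw k i ^ 2 = domTx k i ^ 4 + 1 := by
  have h : (Ideal.Quotient.mk (Ideal.span (Set.range fun i : Fin 3 =>
      (MvPolynomial.X i ^ 2 - MvPolynomial.C ((MvPolynomial.X i : MvPolynomial (Fin 3) k) ^ 4 + 1) :
        MvPolynomial (Fin 3) (MvPolynomial (Fin 3) k)))))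
      (MvPolynomial.X i ^ 2 - MvPolynomial.C (MvPolynomial.X i ^ 4 + 1)) = 0 :=
    Ideal.Quotient.eq_zero_iff_mem.mpr (Ideal.subset_span ⟨i, rfl⟩)
  rw [map_sub, sub_eq_zero, map_pow, map_add, map_pow, map_one, map_add, map_pow, map_one] at h
  exact h

/-- Evaluation at a point with values in an algebra. -/
private noncomputable def domTev {k C : Type} [Field k] [CommRing C] [Algebra k C] (x w : Fin 3 → C)
    (h : ∀ i, w i ^ 2 = x i ^ 4 + 1) : DomTR k →ₐ[k] C :=
  { Quad.lift (q := fun i => MvPolynomial.X i ^ 4 + 1) (MvPolynomial.aeval x :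
      MvPolynomial (Fin 3) k →ₐ[k] C).toRingHom w (by
        intro i
        simp only [AlgHom.toRingHom_eq_coe, RingHom.coe_coe, map_add, map_pow, map_one,
          MvPolynomial.aeval_X]
        exact h i) with
    commutes' := by
      intro r
      show MvPolynomial.eval₂Hom _ w (MvPolynomial.C (MvPolynomial.C r)) = _
      rw [MvPolynomial.eval₂Hom_C]
      show MvPolynomial.aeval x (MvPolynomial.C r) = _
      rw [MvPolynomial.aeval_C] }

private lemma domTev_x {k C : Type} [Field k] [CommRing C] [Algebra k C] (x w : Fin 3 → C)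
    (h : ∀ i, w i ^ 2 = x i ^ 4 + 1) (i : Fin 3) : domTev (k := k) x w h (domTx k i) = x i := by
  show MvPolynomial.eval₂Hom _ w (MvPolynomial.C (MvPolynomial.X i)) = _
  rw [MvPolynomial.eval₂Hom_C]
  show MvPolynomial.aeval x (MvPolynomial.X i) = _
  rw [MvPolynomial.aeval_X]

private lemma domTev_w {k C : Type} [Field k] [CommRing C] [Algebra k C] (x w : Fin 3 → C)
    (h : ∀ i, w i ^ 2 = x i ^ 4 + 1) (i : Fin 3) : domTev (k := k) x w h (domTw k i) = w i := by
  show MvPolynomial.eval₂Hom _ w (MvPolynomial.X i) = _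
  rw [MvPolynomial.eval₂Hom_X']

private lemma domT_ind {k : Type} [Field k] (p : DomTR k → Prop)
    (hc : ∀ r : k, p (algebraMap k _ r)) (hx : ∀ i, p (domTx k i)) (hw : ∀ i, p (domTw k i))
    (ha : ∀ a b, p a → p b → p (a + b)) (hm : ∀ a b, p a → p b → p (a * b)) (r : DomTR k) :
    p r := by
  obtain ⟨P, rfl⟩ := Ideal.Quotient.mk_surjective r
  induction P using MvPolynomial.induction_on with
  | C a =>
    induction a using MvPolynomial.induction_on with
    | C c => exact hc c
    | add a b iha ihb =>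
      rw [map_add, map_add]
      exact ha _ _ iha ihb
    | mul_X a i ih =>
      rw [map_mul, map_mul]
      exact hm _ _ ih (hx i)
  | add a b iha ihb =>
    rw [map_add]
    exact ha _ _ iha ihb
  | mul_X a i ih =>
    rw [map_mul]
    exact hm _ _ ih (hw i)

private lemma domT_ext {k C : Type} [Field k] [CommRing C] [Algebra k C] (f g : DomTR k →ₐ[k] C)
    (hx : ∀ i, f (domTx k i) = g (domTx k i)) (hw : ∀ i, f (domTw k i) = g (domTw k i)) :
    f = g := by
  refine AlgHom.ext fun r => ?_
  refine domT_ind (fun r => f r = g r) ?_ hx hw ?_ ?_ r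
  · intro c
    rw [f.commutes, g.commutes]
  · intro a b h1 h2
    show f (a + b) = g (a + b)
    rw [map_add, map_add, h1, h2]
  · intro a b h1 h2
    show f (a * b) = g (a * b)
    rw [map_mul, map_mul, h1, h2]

private lemma domT_inj {k K : Type} [Field k] [Field K] [Algebra k K] (h2 : (2 : k) ≠ 0)
    (P : Pt k K) : Function.Injective (domTev (k := k) P.x P.w P.sq) := by
  have h := inj_of_sq P h2 (MvPolynomial.aeval P.x : MvPolynomial (Fin 3) k →ₐ[k] K).toRingHom
    (by
      have := P.ind
      exact this) (by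
      intro a
      show MvPolynomial.aeval P.x a ∈ P.F
      refine IntermediateField.algebra_adjoin_le_adjoin k _ ?_
      rw [Algebra.adjoin_range_eq_range_aeval]
      exact ⟨a, rfl⟩) (fun i => MvPolynomial.X i ^ 4 + 1) P.w (by
        intro i
        simp only [AlgHom.toRingHom_eq_coe, RingHom.coe_coe, map_add, map_pow, map_one,
          MvPolynomial.aeval_X]
        exact P.sq i) (fun i => ⟨1, one_mem _, one_ne_zero, (one_mul _).symm⟩)
  exact h

/-- The tensor product with the coordinate ring is a domain. -/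
private lemma domT_base {k : Type} [Field k] (h2 : (2 : k) ≠ 0) (L : Type) [Field L]
    [Algebra k L] : IsDomain (L ⊗[k] DomTR k) := by
  obtain ⟨K', i1, i2, P', -⟩ := exists_pt L
  have h2' : (2 : L) ≠ 0 := by
    have h := (algebraMap k L).injective.ne h2
    rwa [map_ofNat, map_zero] at h
  let _ : Algebra k K' := ((algebraMap L K').comp (algebraMap k L)).toAlgebra
  have : IsScalarTower k L K' := IsScalarTower.of_algebraMap_eq fun _ => rfl
  let χ : L ⊗[k] DomTR k →ₐ[L] K' := Algebra.TensorProduct.lift (Algebra.ofId L K')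
    (domTev (k := k) P'.x P'.w P'.sq) (fun _ _ => Commute.all _ _)
  let ψ : DomTR L →ₐ[L] L ⊗[k] DomTR k :=
    domTev (k := L) (fun i => (1 : L) ⊗ₜ[k] domTx k i) (fun i => (1 : L) ⊗ₜ[k] domTw k i) (by
      intro i
      rw [Algebra.TensorProduct.tmul_pow, Algebra.TensorProduct.tmul_pow, one_pow, one_pow,
        domT_rel, TensorProduct.tmul_add]
      rfl)
  have hcomp : χ.comp ψ = domTev (k := L) P'.x P'.w P'.sq := by
    refine domT_ext _ _ ?_ ?_
    · intro i
      rw [AlgHom.comp_apply, domTev_x, domTev_x]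
      show Algebra.TensorProduct.lift _ _ _ _ = _
      rw [Algebra.TensorProduct.lift_tmul, map_one, one_mul, domTev_x]
    · intro i
      rw [AlgHom.comp_apply, domTev_w, domTev_w]
      show Algebra.TensorProduct.lift _ _ _ _ = _
      rw [Algebra.TensorProduct.lift_tmul, map_one, one_mul, domTev_w]
  have hinj : Function.Injective (χ.comp ψ) := by
    rw [hcomp]
    exact domT_inj h2' P'
  have hsurj : Function.Surjective ψ := by
    intro z
    show z ∈ ψ.range
    have key : ∀ r : DomTR k, (1 : L) ⊗ₜ[k] r ∈ ψ.range := by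
      intro r
      refine domT_ind (fun r => (1 : L) ⊗ₜ[k] r ∈ ψ.range) ?_ ?_ ?_ ?_ ?_ r
      · intro c
        have h1 : (1 : L) ⊗ₜ[k] (algebraMap k (DomTR k) c) =
            (algebraMap k L c) ⊗ₜ[k] (1 : DomTR k) := by
          rw [Algebra.algebraMap_eq_smul_one (A := DomTR k), TensorProduct.tmul_smul,
            TensorProduct.smul_tmul', Algebra.smul_def, mul_one]
        rw [h1]
        have h2 := Subalgebra.algebraMap_mem ψ.range (algebraMap k L c)
        rw [Algebra.TensorProduct.algebraMap_apply, Algebra.algebraMap_self_apply] at h2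
        exact h2
      · intro i
        exact ⟨domTx L i, domTev_x _ _ _ i⟩
      · intro i
        exact ⟨domTw L i, domTev_w _ _ _ i⟩
      · intro a b ha hb
        show (1 : L) ⊗ₜ[k] (a + b) ∈ ψ.range
        rw [TensorProduct.tmul_add]
        exact add_mem ha hb
      · intro a b ha hb
        show (1 : L) ⊗ₜ[k] (a * b) ∈ ψ.range
        have : (1 : L) ⊗ₜ[k] (a * b) = ((1 : L) ⊗ₜ[k] a) * ((1 : L) ⊗ₜ[k] b) := by
          rw [Algebra.TensorProduct.tmul_mul_tmul, one_mul]
        rw [this]
        exact mul_mem ha hb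
    induction z using TensorProduct.induction_on with
    | zero => exact zero_mem _
    | tmul l r =>
      have : l ⊗ₜ[k] r = l • ((1 : L) ⊗ₜ[k] r) := by
        rw [TensorProduct.smul_tmul', smul_eq_mul, mul_one]
      rw [this]
      exact Subalgebra.smul_mem _ (key r) l
    | add a b ha hb => exact add_mem ha hb
  have hχ : Function.Injective χ := by
    intro a b hab
    obtain ⟨a', rfl⟩ := hsurj a
    obtain ⟨b', rfl⟩ := hsurj b
    have : a' = b' := hinj hab
    rw [this]
  exact hχ.isDomain χ.toRingHom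

theorem dom_tensor {k K : Type} [Field k] [Field K] [Algebra k K] (h2 : (2 : k) ≠ 0)
    (P : Pt k K) (hP : P.Gen) (L : Type) [Field L] [Algebra k L] : IsDomain (L ⊗[k] K) := by
  have hdom := domT_base h2 L
  let e : DomTR k →ₐ[k] K := domTev (k := k) P.x P.w P.sq
  have he : Function.Injective e := domT_inj h2 P
  let ι : L ⊗[k] DomTR k →ₐ[L] L ⊗[k] K := Algebra.TensorProduct.map (AlgHom.id L L) e
  have hι : Function.Injective ι := by
    have h := Module.Flat.lTensor_preserves_injective_linearMap (M := L) e.toLinearMap he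
    exact h
  -- common denominators
  have hden : ∀ y : K, ∃ s : DomTR k, s ≠ 0 ∧ ∃ r, e s * y = e r := by
    intro y
    have hy : y ∈ IntermediateField.adjoin k (Set.range P.x ∪ Set.range P.w) := by
      have := hP
      unfold Pt.Gen at this
      rw [this]
      exact IntermediateField.mem_top
    obtain ⟨a, ha, b, hb, rfl⟩ := IntermediateField.mem_adjoin_iff_div.mp hy
    have hle : Algebra.adjoin k (Set.range P.x ∪ Set.range P.w) ≤ e.range := by
      refine Algebra.adjoin_le ?_
      rintro _ (⟨i, rfl⟩ | ⟨i, rfl⟩)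
      · exact ⟨domTx k i, domTev_x _ _ _ i⟩
      · exact ⟨domTw k i, domTev_w _ _ _ i⟩
    obtain ⟨a', rfl⟩ := hle ha
    obtain ⟨b', rfl⟩ := hle hb
    by_cases hb0 : b' = 0
    · refine ⟨1, ?_, 0, ?_⟩
      · intro h1
        have := congrArg e h1
        rw [map_one, map_zero] at this
        exact one_ne_zero this
      · subst hb0
        simp
    · refine ⟨b', hb0, a', ?_⟩
      have : e b' ≠ 0 := fun h => hb0 (he (h.trans (map_zero e).symm))
      show e b' * (e a' / e b') = e a'
      field_simp
  have hcd : ∀ z : L ⊗[k] K, ∃ s : DomTR k, s ≠ 0 ∧ ∃ r, ((1 : L) ⊗ₜ[k] e s) * z = ι r := by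
    intro z
    induction z using TensorProduct.induction_on with
    | zero =>
      refine ⟨1, ?_, 0, ?_⟩
      · intro h1
        have := congrArg e h1
        rw [map_one, map_zero] at this
        exact one_ne_zero this
      · rw [mul_zero, map_zero]
    | tmul l y =>
      obtain ⟨s, hs, r, hr⟩ := hden y
      refine ⟨s, hs, l ⊗ₜ[k] r, ?_⟩
      rw [Algebra.TensorProduct.tmul_mul_tmul, one_mul, hr]
      show _ = Algebra.TensorProduct.map (AlgHom.id L L) e (l ⊗ₜ[k] r)
      rw [Algebra.TensorProduct.map_tmul]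
      rfl
    | add a b ha hb =>
      obtain ⟨s, hs, r, hr⟩ := ha
      obtain ⟨s', hs', r', hr'⟩ := hb
      have hprod : s * s' ≠ 0 := by
        intro h0
        have h1 : e s * e s' = 0 := by rw [← map_mul, h0, map_zero]
        rcases mul_eq_zero.mp h1 with h | h
        · exact hs (he (h.trans (map_zero e).symm))
        · exact hs' (he (h.trans (map_zero e).symm))
      refine ⟨s * s', hprod, ((1 : L) ⊗ₜ[k] s') * r + ((1 : L) ⊗ₜ[k] s) * r', ?_⟩
      have hi : ∀ t : DomTR k, ι ((1 : L) ⊗ₜ[k] t) = (1 : L) ⊗ₜ[k] e t := by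
        intro t
        show Algebra.TensorProduct.map (AlgHom.id L L) e ((1 : L) ⊗ₜ[k] t) = _
        rw [Algebra.TensorProduct.map_tmul]
        rfl
      have hexp : ι (((1 : L) ⊗ₜ[k] s') * r + ((1 : L) ⊗ₜ[k] s) * r') =
          ((1 : L) ⊗ₜ[k] e s') * ι r + ((1 : L) ⊗ₜ[k] e s) * ι r' := by
        rw [map_add ι, map_mul ι, map_mul ι, hi, hi]
      rw [hexp, ← hr, ← hr', map_mul]
      have : (1 : L) ⊗ₜ[k] (e s * e s') = ((1 : L) ⊗ₜ[k] e s) * ((1 : L) ⊗ₜ[k] e s') := by
        rw [Algebra.TensorProduct.tmul_mul_tmul, one_mul]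
      rw [this]
      ring
  have hunit : ∀ s : DomTR k, s ≠ 0 → IsUnit ((1 : L) ⊗ₜ[k] e s) := by
    intro s hs
    have hes : e s ≠ 0 := fun h => hs (he (h.trans (map_zero e).symm))
    have := (IsUnit.mk0 _ hes).map (Algebra.TensorProduct.includeRight : K →ₐ[k] L ⊗[k] K)
    exact this
  have : Nontrivial (L ⊗[k] K) := hι.nontrivial
  have : NoZeroDivisors (L ⊗[k] K) := by
    refine ⟨?_⟩
    intro z1 z2 h
    obtain ⟨s1, hs1, r1, hr1⟩ := hcd z1
    obtain ⟨s2, hs2, r2, hr2⟩ := hcd z2
    have h0 : ι (r1 * r2) = 0 := by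
      rw [map_mul, ← hr1, ← hr2]
      calc _ = ((1 : L) ⊗ₜ[k] e s1) * ((1 : L) ⊗ₜ[k] e s2) * (z1 * z2) := by ring
        _ = 0 := by rw [h, mul_zero]
    have h1 : r1 * r2 = 0 := hι (h0.trans (map_zero ι).symm)
    rcases (mul_eq_zero (M₀ := L ⊗[k] DomTR k) (a := r1) (b := r2)).mp h1 with h3 | h3
    · left
      rw [h3, map_zero] at hr1
      exact (hunit s1 hs1).mul_right_eq_zero.mp hr1
    · right
      rw [h3, map_zero] at hr2
      exact (hunit s2 hs2).mul_right_eq_zero.mp hr2
  exact NoZeroDivisors.to_isDomain _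

theorem dom_tensor_sub {k K : Type} [Field k] [Field K] [Algebra k K] (h2 : (2 : k) ≠ 0)
    (P : Pt k K) (hP : P.Gen) (L : Type) [Field L] [Algebra k L] (A : Subalgebra k K) :
    IsDomain (L ⊗[k] A) := by
  have := dom_tensor h2 P hP L
  let ι : L ⊗[k] A →ₐ[L] L ⊗[k] K := Algebra.TensorProduct.map (AlgHom.id L L) A.val
  have hι : Function.Injective ι := by
    have h := Module.Flat.lTensor_preserves_injective_linearMap (M := L) A.val.toLinearMap
      Subtype.val_injective
    exact h
  exact hι.isDomain ι.toRingHom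

end Pool.Agent.Lib.MP_55c1e7_ag.CK
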