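import Mathlib

/-!
Geometric integrality from an affine cover.

By `GeometricallyIntegral` (and `geometrically_iff_of_commRing_of_isClosedUnderIsomorphisms`) let `L` be a field over `k`
and `X_L` the pull-back of `f` along `Spec L → Spec k`. The pull-backs of the `U i` are open subschemes of `X_L`, isomorphic to
`Spec (L ⊗[k] A i)` (`pullbackSpecIso`), integral because `L ⊗ A i` is a domain; they cover `X_L`
(`OpenCover.pullback₁`-like). `X_L` is reduced (`IsReduced.of_openCover`) and nonempty. It is irreducible: two nonempty open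
subsets `U, V` meet some members `W i`, `W j` of the cover; `W i ∩ W j` is not empty: it is the preimage of
`U i ∩ U j ≠ ∅` under the surjective morphism `X_L → X` (surjectivity is stable under base change;
`Spec L → Spec k` is surjective); as `W i` is irreducible `U ∩ (W i ∩ W j) ≠ ∅`, so `U` meets `W j`, `V` meets `W j`, and `W j` is
irreducible. (`isIntegral_of_irreducibleSpace_of_isReduced`.)
-/

set_option autoImplicit false
set_option linter.unusedSectionVars false
set_option linter.unusedVariables false

open TensorProduct CategoryTheory AlgebraicGeometry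

namespace Pool.Agent.Lib.MP_55c1e7_ag.CK

private theorem Geom_piece {k : Type} [Field k] {X : Scheme.{0}}
    (f : X ⟶ Spec (CommRingCat.of k)) (A : Type) [CommRing A] [Algebra k A]
    (j : Spec (CommRingCat.of A) ⟶ X)
    (hj : j ≫ f = Spec.map (CommRingCat.ofHom (algebraMap k A)))
    (L : Type) [Field L] [Algebra k L] {P : Scheme.{0}} (fst : P ⟶ X)
    (snd : P ⟶ Spec (CommRingCat.of L))
    (h : IsPullback fst snd f (Spec.map (CommRingCat.ofHom (algebraMap k L)))) :
    ∃ (g : Spec (CommRingCat.of (L ⊗[k] A)) ⟶ P)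
      (u : Spec (CommRingCat.of (L ⊗[k] A)) ⟶ Spec (CommRingCat.of A)), IsPullback g u fst j := by
  have h1 := isPullback_SpecMap_of_isPushout _ _ _ _
    (CommRingCat.isPushout_tensorProduct k L A)
  rw [← hj] at h1
  have hw := h1.w
  refine ⟨h.lift (Spec.map (CommRingCat.ofHom
    (Algebra.TensorProduct.includeRight (R := k) (A := L) (B := A)).toRingHom) ≫ j)
    (Spec.map (CommRingCat.ofHom Algebra.TensorProduct.includeLeftRingHom)) ?_,
    Spec.map (CommRingCat.ofHom
    (Algebra.TensorProduct.includeRight (R := k) (A := L) (B := A)).toRingHom), ?_⟩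
  · rw [Category.assoc]
    exact hw.symm
  · refine IsPullback.of_right (h₁₂ := snd) (h₂₂ := f) (v₁₃ := Spec.map (CommRingCat.ofHom (algebraMap k L))) ?_ ?_ h.flip
    · rw [IsPullback.lift_snd]
      exact h1
    · rw [IsPullback.lift_fst]

theorem geomIntegral_of_cover {k : Type} [Field k] {X : Scheme.{0}}
    (f : X ⟶ Spec (CommRingCat.of k)) {ι : Type} [Nonempty ι] (A : ι → Type)
    [∀ i, CommRing (A i)] [∀ i, Algebra k (A i)] (j : ∀ i, Spec (CommRingCat.of (A i)) ⟶ X)
    [∀ i, IsOpenImmersion (j i)]
    (hj : ∀ i, j i ≫ f = Spec.map (CommRingCat.ofHom (algebraMap k (A i))))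
    (hcov : ∀ x : X, ∃ i, x ∈ (j i).opensRange)
    (hne : ∀ i i', (j i).opensRange ⊓ (j i').opensRange ≠ ⊥)
    (hdom : ∀ (L : Type) [Field L] [Algebra k L] (i : ι), IsDomain (L ⊗[k] A i)) :
    GeometricallyIntegral f := by
  rw [geometricallyIntegral_iff, geometrically_iff_of_commRing]
  intro L _ _ P fst snd h
  choose g u hgu using fun i => Geom_piece f (A i) (j i) (hj i) L fst snd h
  have hopen : ∀ i, IsOpenImmersion (g i) := fun i =>
    MorphismProperty.of_isPullback (P := @IsOpenImmersion) (hgu i).flip inferInstance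
  have hint : ∀ i, IsIntegral (Spec (CommRingCat.of (L ⊗[k] A i))) := by
    intro i
    have := hdom L i
    infer_instance
  have hrange : ∀ i (p : P), p ∈ (g i).opensRange ↔ fst p ∈ (j i).opensRange := by
    intro i p
    constructor
    · rintro ⟨q, rfl⟩
      refine ⟨(u i) q, ?_⟩
      rw [← Scheme.Hom.comp_apply, ← Scheme.Hom.comp_apply, (hgu i).w]
    · rintro ⟨a, ha⟩
      obtain ⟨q, hq, -⟩ := Scheme.exists_preimage_of_isPullback (hgu i) p a ha.symm
      exact ⟨q, hq⟩
  have hsurj : Function.Surjective fst := by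
    intro x
    have hs : Function.Surjective (Spec.map (CommRingCat.ofHom (algebraMap k L))) :=
      fun y => ⟨default, Subsingleton.elim _ _⟩
    obtain ⟨y, hy⟩ := hs (f x)
    obtain ⟨q, hq, -⟩ := Scheme.exists_preimage_of_isPullback h x y hy.symm
    exact ⟨q, hq⟩
  have hred : IsReduced P := by
    have (x : P) : _root_.IsReduced (P.presheaf.stalk x) := by
      obtain ⟨i, hi⟩ := hcov (fst x)
      obtain ⟨q, rfl⟩ := (hrange i x).2 hi
      have := hopen i
      have := hint i
      exact isReduced_of_injective _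
        (asIso <| (g i).stalkMap q).commRingCatIsoToRingEquiv.injective
    exact isReduced_of_isReduced_stalk _
  have hirr : IrreducibleSpace P := by
    have hpre : PreirreducibleSpace P := by
      refine PreirreducibleSpace.of_forall_nonempty_inter ?_
      have key : ∀ (i : ι) (U V : Set P), IsOpen U → IsOpen V →
          (U ∩ (g i).opensRange).Nonempty → (V ∩ (g i).opensRange).Nonempty →
          ((U ∩ V) ∩ (g i).opensRange).Nonempty := by
        intro i U V hU hV hUn hVn
        have := hint i
        obtain ⟨x, hx, y, rfl⟩ := hUn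
        obtain ⟨x', hx', y', rfl⟩ := hVn
        have hc : Continuous (g i) := (g i).continuous
        obtain ⟨z, hz1, hz2⟩ := nonempty_preirreducible_inter (hU.preimage hc) (hV.preimage hc)
          ⟨y, hx⟩ ⟨y', hx'⟩
        exact ⟨(g i) z, ⟨hz1, hz2⟩, z, rfl⟩
      intro U V hU hV ⟨a, ha⟩ ⟨b, hb⟩
      obtain ⟨i, hi⟩ := hcov (fst a)
      obtain ⟨i', hi'⟩ := hcov (fst b)
      have hi2 := (hrange i a).2 hi
      have hi2' := (hrange i' b).2 hi'
      obtain ⟨x, hx1, hx2⟩ : ∃ x : X, x ∈ (j i).opensRange ∧ x ∈ (j i').opensRange := by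
        by_contra hcon
        push Not at hcon
        apply hne i i'
        ext x
        simp only [SetLike.mem_coe]
        constructor
        · intro hx
          exact absurd hx.2 (hcon x hx.1)
        · intro hx
          exact absurd hx (by simp)
      obtain ⟨c, rfl⟩ := hsurj x
      have hc1 := (hrange i c).2 hx1
      have hc2 := (hrange i' c).2 hx2
      obtain ⟨d, ⟨hd1, hd2⟩, hd3⟩ := key i U ((g i').opensRange : Set P) hU (g i').opensRange.2
        ⟨a, ha, hi2⟩ ⟨c, hc2, hc1⟩
      obtain ⟨e, he1, he2⟩ := key i' U V hU hV ⟨d, hd1, hd2⟩ ⟨b, hb, hi2'⟩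
      exact ⟨e, he1⟩
    obtain ⟨i⟩ := (inferInstance : Nonempty ι)
    have := hint i
    obtain ⟨q⟩ : Nonempty (Spec (CommRingCat.of (L ⊗[k] A i))) := inferInstance
    exact { toNonempty := ⟨(g i) q⟩ }
  exact isIntegral_of_irreducibleSpace_of_isReduced P

end Pool.Agent.Lib.MP_55c1e7_ag.CK
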