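import Mathlib

/-!
Two schemes covered by the same schemes are isomorphic.
-/

set_option autoImplicit false
set_option linter.unusedSectionVars false
set_option linter.unusedVariables false

open CategoryTheory CategoryTheory.Limits AlgebraicGeometry

namespace Pool.Agent.Lib.MP_55c1e7_ag.CK

/-- A morphism glued from morphisms of an open cover, which agree on a dense part. -/
theorem exists_hom_of_cover {S X Y T : Scheme.{0}} (f : X ⟶ S) (g : Y ⟶ S) [IsSeparated g]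
    [IsReduced X] (η' : T ⟶ Y) {ι : Type} (U : ι → Scheme.{0})
    (j : ∀ i, U i ⟶ X) (j' : ∀ i, U i ⟶ Y) [∀ i, IsOpenImmersion (j i)] (t : ∀ i, T ⟶ U i)
    [∀ i, IsDominant (t i)] (h : ∀ i i', t i ≫ j i = t i' ≫ j i') (h' : ∀ i, t i ≫ j' i = η')
    (hf : ∀ i, j' i ≫ g = j i ≫ f) (hcov : ∀ x : X, ∃ i, x ∈ (j i).opensRange) :
    ∃ e : X ⟶ Y, e ≫ g = f ∧ ∀ i, j i ≫ e = j' i := by
  let 𝒰 : X.OpenCover := Scheme.Cover.mkOfCovers ι U j
    (fun x => by
      obtain ⟨i, hi⟩ := hcov x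
      obtain ⟨y, hy⟩ := hi
      exact ⟨i, y, hy⟩)
  have hcompat : ∀ a b : ι, pullback.fst (j a) (j b) ≫ j' a = pullback.snd (j a) (j b) ≫ j' b := by
    intro a b
    have hred : IsReduced (pullback (j a) (j b)) :=
      isReduced_of_isOpenImmersion (pullback.fst (j a) (j b) ≫ j a)
    let s : T ⟶ pullback (j a) (j b) := pullback.lift (t a) (t b) (h a b)
    have hs : IsDominant s := by
      have h1 : s ≫ pullback.fst (j a) (j b) = t a := pullback.lift_fst _ _ _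
      have h2 : IsDominant (s ≫ pullback.fst (j a) (j b)) := by
        rw [h1]
        infer_instance
      exact IsDominant.of_comp_of_isOpenImmersion s (pullback.fst (j a) (j b))
    refine ext_of_isDominant_of_isSeparated g ?_ s ?_
    · rw [Category.assoc, Category.assoc, hf a, hf b, pullback.condition_assoc]
    · rw [← Category.assoc, ← Category.assoc, pullback.lift_fst, pullback.lift_snd, h' a, h' b]
  refine ⟨𝒰.glueMorphisms j' hcompat, ?_, fun i => 𝒰.ι_glueMorphisms j' hcompat i⟩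
  refine 𝒰.hom_ext _ _ fun i => ?_
  rw [← Category.assoc, 𝒰.ι_glueMorphisms j' hcompat i]
  exact hf i

/-- Two reduced separated schemes covered by the same schemes are isomorphic. -/
theorem iso_of_common_cover {S X Y T : Scheme.{0}} (f : X ⟶ S) (g : Y ⟶ S) [IsSeparated f]
    [IsSeparated g] [IsReduced X] [IsReduced Y] (η : T ⟶ X) (η' : T ⟶ Y)
    {ι : Type} (U : ι → Scheme.{0})
    (j : ∀ i, U i ⟶ X) (j' : ∀ i, U i ⟶ Y) [∀ i, IsOpenImmersion (j i)]
    [∀ i, IsOpenImmersion (j' i)] (t : ∀ i, T ⟶ U i) [∀ i, IsDominant (t i)]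
    (h : ∀ i, t i ≫ j i = η) (h' : ∀ i, t i ≫ j' i = η')
    (hf : ∀ i, j i ≫ f = j' i ≫ g) (hcov : ∀ x : X, ∃ i, x ∈ (j i).opensRange)
    (hcov' : ∀ x : Y, ∃ i, x ∈ (j' i).opensRange) :
    ∃ e : X ≅ Y, e.hom ≫ g = f ∧ ∀ i, j i ≫ e.hom = j' i := by
  obtain ⟨a, ha, haj⟩ := exists_hom_of_cover f g η' U j j' t
    (fun i i' => by rw [h i, h i']) h' (fun i => (hf i).symm) hcov
  obtain ⟨b, hb, hbj⟩ := exists_hom_of_cover g f η U j' j t
    (fun i i' => by rw [h' i, h' i']) h hf hcov'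
  let 𝒰 : X.OpenCover := Scheme.Cover.mkOfCovers ι U j
    (fun x => by
      obtain ⟨i, hi⟩ := hcov x
      obtain ⟨y, hy⟩ := hi
      exact ⟨i, y, hy⟩)
  let 𝒱 : Y.OpenCover := Scheme.Cover.mkOfCovers ι U j'
    (fun x => by
      obtain ⟨i, hi⟩ := hcov' x
      obtain ⟨y, hy⟩ := hi
      exact ⟨i, y, hy⟩)
  refine ⟨⟨a, b, ?_, ?_⟩, ha, haj⟩
  · refine 𝒰.hom_ext _ _ fun i => ?_
    change j i ≫ a ≫ b = j i ≫ 𝟙 X
    rw [← Category.assoc, haj i, hbj i, Category.comp_id]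
  · refine 𝒱.hom_ext _ _ fun i => ?_
    change j' i ≫ b ≫ a = j' i ≫ 𝟙 Y
    rw [← Category.assoc, hbj i, haj i, Category.comp_id]

end Pool.Agent.Lib.MP_55c1e7_ag.CK
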