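import Pool.Agent.Lib.MP_55c1e7_ag.CK.Comp

/-!
Intersections of charts.
-/

set_option autoImplicit false
set_option linter.unusedSectionVars false
set_option linter.unusedVariables false

open CategoryTheory CategoryTheory.Limits AlgebraicGeometry TensorProduct

namespace Pool.Agent.Lib.MP_55c1e7_ag.CK

variable {R K : Type} [CommRing R] [Field K] [Algebra R K]

theorem isClosedImmersion_sup (A B : Subalgebra R K) :
    IsClosedImmersion (pullback.lift (f := str A) (g := str B)
      (incl (le_sup_left : A ≤ A ⊔ B)) (incl (le_sup_right : B ≤ A ⊔ B))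
      (by rw [incl_str, incl_str])) := by
  let m : A ⊗[R] B →ₐ[R] ↥(A ⊔ B) := Algebra.TensorProduct.lift
    (Subalgebra.inclusion (le_sup_left : A ≤ A ⊔ B))
    (Subalgebra.inclusion (le_sup_right : B ≤ A ⊔ B)) (fun _ _ => Commute.all _ _)
  have hm : Function.Surjective m := by
    have h1 : (A ⊔ B) ≤ m.range.map (A ⊔ B).val := by
      refine sup_le ?_ ?_
      · intro x hx
        refine ⟨⟨x, (le_sup_left : A ≤ A ⊔ B) hx⟩, ⟨(⟨x, hx⟩ : A) ⊗ₜ 1, ?_⟩, rfl⟩
        apply Subtype.ext
        change (((m ((⟨x, hx⟩ : A) ⊗ₜ[R] (1 : B))) : ↥(A ⊔ B)) : K) = x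
        rw [Algebra.TensorProduct.lift_tmul, map_one, mul_one]
        rfl
      · intro x hx
        refine ⟨⟨x, (le_sup_right : B ≤ A ⊔ B) hx⟩, ⟨(1 : A) ⊗ₜ (⟨x, hx⟩ : B), ?_⟩, rfl⟩
        apply Subtype.ext
        change (((m ((1 : A) ⊗ₜ[R] (⟨x, hx⟩ : B))) : ↥(A ⊔ B)) : K) = x
        rw [Algebra.TensorProduct.lift_tmul, map_one, one_mul]
        rfl
    rintro ⟨x, hx⟩
    obtain ⟨y, ⟨z, hz⟩, hy⟩ := h1 hx
    refine ⟨z, Subtype.ext ?_⟩
    change m z = y at hz
    rw [hz]
    exact hy
  have h1 : IsClosedImmersion (Spec.map (CommRingCat.ofHom m.toRingHom)) :=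
    IsClosedImmersion.spec_of_surjective _ hm
  obtain ⟨e, he1, he2⟩ : ∃ e : pullback (str A) (str B) ≅ Spec (CommRingCat.of (A ⊗[R] B)),
      e.inv ≫ pullback.fst (str A) (str B) = Spec.map (CommRingCat.ofHom
        (algebraMap A (A ⊗[R] B))) ∧
      e.inv ≫ pullback.snd (str A) (str B) = Spec.map (CommRingCat.ofHom
        (Algebra.TensorProduct.includeRight (R := R) (A := A) (B := B)).toRingHom) :=
    ⟨pullbackSpecIso R A B, pullbackSpecIso_inv_fst R A B, pullbackSpecIso_inv_snd R A B⟩
  have h2 : pullback.lift (f := str A) (g := str B)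
      (incl (le_sup_left : A ≤ A ⊔ B)) (incl (le_sup_right : B ≤ A ⊔ B))
      (by rw [incl_str, incl_str]) =
      Spec.map (CommRingCat.ofHom m.toRingHom) ≫ e.inv := by
    apply pullback.hom_ext
    · rw [pullback.lift_fst, Category.assoc, he1]
      unfold incl
      rw [← Spec.map_comp]
      congr 1
      ext x
      change (x : K) = ((m (x ⊗ₜ 1) : ↥(A ⊔ B)) : K)
      rw [Algebra.TensorProduct.lift_tmul, map_one, mul_one]
      rfl
    · rw [pullback.lift_snd, Category.assoc, he2]
      unfold incl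
      rw [← Spec.map_comp]
      congr 1
      ext x
      change (x : K) = ((m (1 ⊗ₜ x) : ↥(A ⊔ B)) : K)
      rw [Algebra.TensorProduct.lift_tmul, map_one, one_mul]
      rfl
  rw [h2]
  infer_instance

theorem isPullback_sup {X : Scheme.{0}} (f : X ⟶ Spec (CommRingCat.of R)) [IsSeparated f]
    {A B : Subalgebra R K} (j : Spec (CommRingCat.of A) ⟶ X) (j' : Spec (CommRingCat.of B) ⟶ X)
    [IsOpenImmersion j] [IsOpenImmersion j'] (hj : j ≫ f = str A) (hj' : j' ≫ f = str B)
    (hgen : gen A ≫ j = gen B ≫ j') :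
    IsPullback (incl (le_sup_left : A ≤ A ⊔ B)) (incl (le_sup_right : B ≤ A ⊔ B)) j j' := by
  have hw : incl (le_sup_left : A ≤ A ⊔ B) ≫ j = incl (le_sup_right : B ≤ A ⊔ B) ≫ j' := by
    refine ext_of_isDominant_of_isSeparated f ?_ (gen (A ⊔ B)) ?_
    · rw [Category.assoc, Category.assoc, hj, hj', incl_str, incl_str]
    · rw [← Category.assoc, ← Category.assoc, gen_incl, gen_incl, hgen]
  let s : Spec (CommRingCat.of ↥(A ⊔ B)) ⟶ pullback j j' := pullback.lift _ _ hw
  let t : pullback j j' ⟶ pullback (str A) (str B) :=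
    pullback.lift (pullback.fst j j') (pullback.snd j j') (by
      rw [← hj, ← hj', ← Category.assoc, ← Category.assoc, pullback.condition])
  have hred : IsReduced (pullback j j') :=
    isReduced_of_isOpenImmersion (pullback.fst j j')
  have ht : IsSeparated t := by
    have h1 : t ≫ pullback.fst (str A) (str B) = pullback.fst j j' := pullback.lift_fst _ _ _
    have h2 : IsSeparated (t ≫ pullback.fst (str A) (str B)) := by
      rw [h1]
      infer_instance
    exact IsSeparated.of_comp t (pullback.fst (str A) (str B))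
  have hst : IsClosedImmersion (s ≫ t) := by
    have h1 : s ≫ t = pullback.lift (f := str A) (g := str B)
        (incl (le_sup_left : A ≤ A ⊔ B)) (incl (le_sup_right : B ≤ A ⊔ B))
        (by rw [incl_str, incl_str]) := by
      apply pullback.hom_ext
      · rw [Category.assoc, pullback.lift_fst, pullback.lift_fst, pullback.lift_fst]
      · rw [Category.assoc, pullback.lift_snd, pullback.lift_snd, pullback.lift_snd]
    rw [h1]
    exact isClosedImmersion_sup A B
  have hs : IsClosedImmersion s := IsClosedImmersion.of_comp s t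
  have hdom : IsDominant s := by
    have h1 : IsDominant (gen (A ⊔ B) ≫ s) := by
      have h2 : (gen (A ⊔ B) ≫ s) ≫ pullback.fst j j' = gen A := by
        rw [Category.assoc, pullback.lift_fst, gen_incl]
      have h3 : IsDominant ((gen (A ⊔ B) ≫ s) ≫ pullback.fst j j') := by
        rw [h2]
        infer_instance
      exact IsDominant.of_comp_of_isOpenImmersion _ (pullback.fst j j')
    exact IsDominant.of_comp (gen (A ⊔ B)) s
  have hsurj : Surjective s :=
    surjective_of_isDominant_of_isClosed_range _ (Scheme.Hom.isClosedEmbedding _).isClosed_range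
  have hiso : IsIso s := isIso_of_isClosedImmersion_of_surjective s
  refine IsPullback.of_iso_pullback ⟨hw⟩ (asIso s) ?_ ?_
  · exact pullback.lift_fst _ _ _
  · exact pullback.lift_snd _ _ _

end Pool.Agent.Lib.MP_55c1e7_ag.CK
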