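import Pool.Agent.Lib.MP_55c1e7_ag.CK.Defs

/-!
Linear independence of square roots.

`kummer`, by induction on `n` (for all fields `F` at the same time). `n = 0`: one vector, `1`. Step `n + 1`: let
`q 0 = w 0 ^ 2`, not a square in `F` (`S = {0}`), so `w 0 ∉ F`; `F' = F(w 0)` (`IntermediateField.adjoin F {w 0}`, or the
subfield `{a + b * w 0}`), every element of `F'` is `a + b * w 0` with unique `a, b ∈ F` (basis `1, w 0`). The `q i`,
`i ≥ 1`, satisfy the hypothesis over `F'`: let `Q` be a product of `q i`, `i ∈ S`, `S ≠ ∅`, `0 ∉ S`, and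
`Q = (a + b w 0) ^ 2 = a ^ 2 + b ^ 2 q 0 + 2 a b w 0`. So `a b = 0` (`2 ≠ 0`). If `b = 0` then `Q = a ^ 2`; if `a = 0` then
`Q q 0 = (b q 0) ^ 2` is the product for `S ∪ {0}`: both excluded. By induction the `w ^ S`, `S ⊆ {1, …, n}`, are
independent over `F'`, so the `w ^ S` and `w 0 * w ^ S` are independent over `F`: a relation
`∑ a_S w^S + ∑ b_S w 0 w^S = 0` is `∑ (a_S + b_S w 0) w^S = 0`.
One may also prove it directly for `n = 3`.
-/

set_option autoImplicit false
set_option linter.unusedSectionVars false
set_option linter.unusedVariables false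

namespace Pool.Agent.Lib.MP_55c1e7_ag.CK

private lemma Kummer_repr {F K : Type} [Field F] [Field K] [Algebra F K] (q : F) (w : K)
    (hw : w ^ 2 = algebraMap F K q) (u : IntermediateField.adjoin F {w}) :
    ∃ a b : F, (u : K) = algebraMap F K a + algebraMap F K b * w := by
  have hmon : (Polynomial.X ^ 2 - Polynomial.C q : Polynomial F).Monic :=
    Polynomial.monic_X_pow_sub_C q (by norm_num)
  have hroot : Polynomial.aeval w (Polynomial.X ^ 2 - Polynomial.C q : Polynomial F) = 0 := by
    simp [hw]
  have hint : IsIntegral F w := ⟨_, hmon, by simpa [Polynomial.aeval_def] using hroot⟩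
  have hu : (u : K) ∈ Algebra.adjoin F {w} := by
    have h1 : (u : K) ∈ (IntermediateField.adjoin F {w}).toSubalgebra := u.2
    rwa [IntermediateField.adjoin_simple_toSubalgebra_of_isAlgebraic hint.isAlgebraic] at h1
  rw [Algebra.adjoin_singleton_eq_range_aeval] at hu
  obtain ⟨p, hp⟩ := hu
  have hp' : Polynomial.aeval w p = (u : K) := hp
  have hmod := Polynomial.aeval_modByMonic_eq_self_of_root hroot (p := p)
  have hdeg : (p %ₘ (Polynomial.X ^ 2 - Polynomial.C q)).natDegree ≤ 1 := by
    have h1 := Polynomial.natDegree_modByMonic_lt p hmon (by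
      intro h
      have h3 := Polynomial.natDegree_X_pow_sub_C (n := 2) (r := q)
      rw [h] at h3
      simp at h3)
    have h2 : (Polynomial.X ^ 2 - Polynomial.C q : Polynomial F).natDegree = 2 :=
      Polynomial.natDegree_X_pow_sub_C
    omega
  obtain ⟨b, a, hab⟩ := Polynomial.exists_eq_X_add_C_of_natDegree_le_one hdeg
  refine ⟨a, b, ?_⟩
  rw [← hp', ← hmod, hab]
  simp [add_comm]

private lemma Kummer_pair {F K : Type} [Field F] [Field K] [Algebra F K] (q : F) (w : K)
    (hw : w ^ 2 = algebraMap F K q) (hq : ¬ IsSquare q) (a b : F)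
    (h : algebraMap F K a + algebraMap F K b * w = 0) : a = 0 ∧ b = 0 := by
  have hb : b = 0 := by
    by_contra hb
    apply hq
    refine ⟨-a / b, ?_⟩
    apply (algebraMap F K).injective
    have hbK : algebraMap F K b ≠ 0 := by simpa using hb
    have hw' : w = algebraMap F K (-a / b) := by
      rw [map_div₀, map_neg, eq_div_iff hbK]
      linear_combination h
    rw [← hw, map_mul, ← hw', sq]
  subst hb
  refine ⟨?_, rfl⟩
  simpa using h

private theorem Kummer_aux {K : Type} [Field K] : ∀ (n : ℕ) (F : Type) [Field F] [Algebra F K],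
    (2 : F) ≠ 0 → ∀ (q : Fin n → F) (w : Fin n → K), (∀ i, w i ^ 2 = algebraMap F K (q i)) →
    (∀ S : Finset (Fin n), S.Nonempty → ¬ IsSquare (∏ i ∈ S, q i)) →
    LinearIndependent F (fun S : Finset (Fin n) => ∏ i ∈ S, w i)
  | 0, F, _, _, h2, q, w, hw, hq => by
    rw [Fintype.linearIndependent_iff]
    intro g hg S
    have hS : S = ∅ := by
      ext i
      exact i.elim0
    subst hS
    have huniv : (Finset.univ : Finset (Finset (Fin 0))) = {∅} := by
      ext T
      simp only [Finset.mem_univ, Finset.mem_singleton, true_iff]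
      ext i
      exact i.elim0
    rw [huniv, Finset.sum_singleton, Finset.prod_empty, Algebra.smul_def, mul_one] at hg
    simpa using hg
  | n + 1, F, _, _, h2, q, w, hw, hq => by
    have hq0 : ¬ IsSquare (q 0) := by
      have := hq {0} (by simp)
      simpa using this
    have h2' : (2 : IntermediateField.adjoin F {w 0}) ≠ 0 := by
      intro h
      apply h2
      apply (algebraMap F (IntermediateField.adjoin F {w 0})).injective
      rw [map_ofNat, map_zero]
      exact h
    have hw' : ∀ i : Fin n, w i.succ ^ 2 = algebraMap (IntermediateField.adjoin F {w 0}) K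
        (algebraMap F (IntermediateField.adjoin F {w 0}) (q i.succ)) := by
      intro i
      rw [← IsScalarTower.algebraMap_apply]
      exact hw i.succ
    have hprod : ∀ S : Finset (Fin n), ∏ i ∈ S.map (Fin.succEmb n), q i = ∏ i ∈ S, q i.succ := by
      intro S
      rw [Finset.prod_map]
      rfl
    have hq' : ∀ S : Finset (Fin n), S.Nonempty → ¬ IsSquare (∏ i ∈ S,
        algebraMap F (IntermediateField.adjoin F {w 0}) (q i.succ)) := by
      rintro S hS ⟨u, hu⟩
      obtain ⟨a, b, hab⟩ := Kummer_repr (q 0) (w 0) (hw 0) u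
      have h1 : algebraMap F K (∏ i ∈ S, q i.succ) = (u : K) * (u : K) := by
        have h3 := congrArg (algebraMap (IntermediateField.adjoin F {w 0}) K) hu
        rw [← map_prod, ← IsScalarTower.algebraMap_apply, map_mul] at h3
        exact h3
      have h4 : algebraMap F K (a * a + b * b * q 0 - ∏ i ∈ S, q i.succ) +
          algebraMap F K (2 * a * b) * w 0 = 0 := by
        have h5 := hw 0
        rw [map_sub, h1, hab]
        simp only [map_add, map_mul, map_ofNat]
        rw [← h5]
        ring
      obtain ⟨h6, h7⟩ := Kummer_pair (q 0) (w 0) (hw 0) hq0 _ _ h4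
      have h8 : ∏ i ∈ S, q i.succ = a * a + b * b * q 0 := (sub_eq_zero.1 h6).symm
      have h9 : a = 0 ∨ b = 0 := by
        rcases mul_eq_zero.1 h7 with h | h
        · rcases mul_eq_zero.1 h with h | h
          · exact absurd h h2
          · exact Or.inl h
        · exact Or.inr h
      rcases h9 with h | h
      · subst h
        apply hq (insert 0 (S.map (Fin.succEmb n))) (Finset.insert_nonempty _ _)
        rw [Finset.prod_insert (by simp), hprod, h8]
        exact ⟨b * q 0, by ring⟩
      · subst h
        apply hq (S.map (Fin.succEmb n)) (by simpa using hS)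
        rw [hprod, h8]
        exact ⟨a, by ring⟩
    have ih := Kummer_aux n (IntermediateField.adjoin F {w 0}) h2'
      (fun i => algebraMap F (IntermediateField.adjoin F {w 0}) (q i.succ)) (fun i => w i.succ)
      hw' hq'
    let w0 : IntermediateField.adjoin F {w 0} :=
      ⟨w 0, IntermediateField.mem_adjoin_simple_self F (w 0)⟩
    have hb : LinearIndependent F ![(1 : IntermediateField.adjoin F {w 0}), w0] := by
      rw [LinearIndependent.pair_iff]
      intro s t hst
      apply Kummer_pair (q 0) (w 0) (hw 0) hq0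
      have h3 := congrArg (fun z : IntermediateField.adjoin F {w 0} => (z : K)) hst
      simp only [IntermediateField.coe_add,
        IntermediateField.coe_zero, Algebra.smul_def, mul_one] at h3
      exact h3
    have hbc := linearIndependent_smul hb ih
    have hcomp := hbc.comp (fun S : Finset (Fin (n + 1)) =>
      ((if (0 : Fin (n + 1)) ∈ S then (1 : Fin 2) else 0),
        (Finset.univ.filter fun i : Fin n => i.succ ∈ S))) (by
      intro S T hST
      simp only [Prod.mk.injEq] at hST
      obtain ⟨h3, h4⟩ := hST
      ext i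
      refine Fin.cases ?_ (fun i => ?_) i
      · by_cases hS : (0 : Fin (n + 1)) ∈ S <;> by_cases hT : (0 : Fin (n + 1)) ∈ T <;>
          simp [hS, hT] at h3 ⊢
      · have h5 := congrArg (fun U : Finset (Fin n) => i ∈ U) h4
        simpa using h5)
    convert hcomp using 1
    funext S
    simp only [Function.comp]
    have h3 : ∏ i ∈ S, w i = ∏ i, if i ∈ S then w i else 1 := by
      rw [Finset.prod_ite_mem, Finset.univ_inter]
    rw [h3, Fin.prod_univ_succ, Finset.prod_filter]
    by_cases hS : (0 : Fin (n + 1)) ∈ S
    · simp only [hS, if_true, Matrix.cons_val_one, Matrix.cons_val_zero]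
      rfl
    · simp only [hS, if_false, Matrix.cons_val_zero, one_smul, one_mul]

theorem kummer {F K : Type} [Field F] [Field K] [Algebra F K] (h2 : (2 : F) ≠ 0) {n : ℕ}
    (q : Fin n → F) (w : Fin n → K) (hw : ∀ i, w i ^ 2 = algebraMap F K (q i))
    (hq : ∀ S : Finset (Fin n), S.Nonempty → ¬ IsSquare (∏ i ∈ S, q i)) :
    LinearIndependent F (fun S : Finset (Fin n) => ∏ i ∈ S, w i) :=
  Kummer_aux n F h2 q w hw hq

end Pool.Agent.Lib.MP_55c1e7_ag.CK
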