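import Pool.Agent.Lib.MP_55c1e7_ag.CK.Sq
import Pool.Agent.Lib.MP_55c1e7_ag.CK.Kummer

/-!
The square roots are independent.

* `Pt.li`: `F = k(x)` is isomorphic to `FractionRing (MvPolynomial (Fin 3) k)` (`AlgebraicIndependent.aevalEquivField`-like, or
  lift `aeval P.x` to the fraction field; the image of the injective homomorphism is `P.F`). `kummer` for
  `q i = x i ^ 4 + 1`, `prod_not_sq`.
-/

set_option autoImplicit false
set_option linter.unusedSectionVars false
set_option linter.unusedVariables false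

namespace Pool.Agent.Lib.MP_55c1e7_ag.CK

variable {k K : Type} [Field k] [Field K] [Algebra k K] (P : Pt k K)

theorem Pt.li (h2 : (2 : k) ≠ 0) :
    LinearIndependent P.F (fun S : Finset (Fin 3) => ∏ i ∈ S, P.w i) := by
  classical
  have hx : ∀ i, P.x i ∈ P.F := fun i =>
    IntermediateField.subset_adjoin k _ (Set.mem_range_self i)
  let X : Fin 3 → P.F := fun i => ⟨P.x i, hx i⟩
  have h2F : (2 : P.F) ≠ 0 := by
    intro h
    have e : algebraMap k P.F 2 = 0 := by
      rw [map_ofNat]
      exact h
    exact h2 ((map_eq_zero (algebraMap k P.F)).mp e)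
  refine kummer h2F (fun i => X i ^ 4 + 1) P.w ?_ ?_
  · intro i
    rw [P.sq i]
    simp [X]
  · intro S hS hsq
    obtain ⟨r, hr⟩ := hsq
    let φ := P.ind.aevalEquivField
    have key : φ (algebraMap (MvPolynomial (Fin 3) k) _ (∏ i ∈ S, (MvPolynomial.X i ^ 4 + 1))) =
        ∏ i ∈ S, (X i ^ 4 + 1) := by
      apply Subtype.ext
      rw [P.ind.aevalEquivField_algebraMap_apply_coe]
      simp [X]
    refine prod_not_sq h2 S hS (φ.symm r) ?_
    apply φ.injective
    rw [key, map_pow, AlgEquiv.apply_symm_apply, hr, pow_two]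

end Pool.Agent.Lib.MP_55c1e7_ag.CK
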