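import Mathlib

/-!
The place 3 of the rational numbers.

`v3`: the prime ideal generated by `3` in `𝓞 ℚ` (isomorphic to `ℤ`: `Rat.ringOfIntegersEquiv`), nonzero.
`O = (v3.valuation ℚ).integer = {q | v3 q ≤ 1}`. Useful: for an integer `n` prime to `3` the valuation of `n` is `1`
(`IsDedekindDomain.HeightOneSpectrum.valuation_eq_one_iff`-like, `valuation_of_algebraMap`, `intValuation_eq_one_iff`), and
`v3 3 < 1`. So `2`, `41` are units. `O` is the localization of `𝓞 ℚ` at `v3`, a discrete valuation ring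
(`IsDedekindDomain.HeightOneSpectrum` API; or directly: a valuation subring of `ℚ` with a uniformizer; or
every rational number is `3 ^ n * a / b` with `a, b` prime to `3`: `O` consists of the `a / b` with `b` prime to `3`).
-/

set_option autoImplicit false
set_option linter.unusedSectionVars false
set_option linter.unusedVariables false

open IsDedekindDomain NumberField

namespace Pool.Agent.Lib.MP_55c1e7_ag.CK

private theorem Val_prime3 : Prime (3 : 𝓞 ℚ) := by
  have h : Prime (Rat.ringOfIntegersEquiv (3 : 𝓞 ℚ)) := by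
    have : Rat.ringOfIntegersEquiv (3 : 𝓞 ℚ) = (3 : ℤ) := map_ofNat _ 3
    rw [this]; exact Int.prime_three
  exact (MulEquiv.prime_iff (Rat.ringOfIntegersEquiv : 𝓞 ℚ ≃+* ℤ).toMulEquiv).1 h

private theorem Val_not_mem (n : ℤ) (hn : ¬ (3 : ℤ) ∣ n) :
    ((n : ℤ) : 𝓞 ℚ) ∉ Ideal.span {(3 : 𝓞 ℚ)} := by
  intro h
  rw [Ideal.mem_span_singleton] at h
  have := map_dvd (Rat.ringOfIntegersEquiv : 𝓞 ℚ ≃+* ℤ) h
  rw [map_intCast, map_ofNat] at this
  exact hn (by simpa using this)

theorem exists_v3 : ∃ v : HeightOneSpectrum (𝓞 ℚ),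
    IsDiscreteValuationRing (v.valuation ℚ).integer ∧
    IsFractionRing (v.valuation ℚ).integer ℚ ∧
    Irreducible (3 : (v.valuation ℚ).integer) ∧
    IsUnit (2 : (v.valuation ℚ).integer) ∧ IsUnit (41 : (v.valuation ℚ).integer) := by
  have h3 : (3 : 𝓞 ℚ) ≠ 0 := by norm_num
  let v : HeightOneSpectrum (𝓞 ℚ) :=
    { asIdeal := Ideal.span {(3 : 𝓞 ℚ)}
      isPrime := (Ideal.span_singleton_prime h3).2 Val_prime3
      ne_bot := by simp }
  have hv : v.asIdeal = Ideal.span {(3 : 𝓞 ℚ)} := rfl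
  have hval3 : v.valuation ℚ (3 : ℚ) = WithZero.exp (-1 : ℤ) := by
    have h1 : v.valuation ℚ (algebraMap (𝓞 ℚ) ℚ 3) = v.intValuation 3 :=
      v.valuation_of_algebraMap (K := ℚ) (3 : 𝓞 ℚ)
    rw [v.intValuation_singleton h3 hv, map_ofNat] at h1
    exact h1
  have hunit : ∀ n : ℤ, ¬ (3 : ℤ) ∣ n → v.valuation ℚ (n : ℚ) = 1 := by
    intro n hn
    have := (v.valuation_eq_one_iff_notMem (K := ℚ) (r := ((n : ℤ) : 𝓞 ℚ))).2 (Val_not_mem n hn)
    simpa using this
  have hI := Valuation.integer.integers (v.valuation ℚ)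
  refine ⟨v, inferInstance, inferInstance, ?_, ?_, ?_⟩
  · rw [irreducible_iff]
    refine ⟨?_, ?_⟩
    · rw [hI.isUnit_iff_valuation_eq_one]
      intro h
      have h' : v.valuation ℚ (3 : ℚ) = 1 := h
      rw [hval3] at h'
      simp at h'
    · intro a b hab
      rw [hI.isUnit_iff_valuation_eq_one, hI.isUnit_iff_valuation_eq_one]
      have ha : v.valuation ℚ (a : ℚ) ≤ 1 := a.2
      have hb : v.valuation ℚ (b : ℚ) ≤ 1 := b.2
      have habv : v.valuation ℚ (a : ℚ) * v.valuation ℚ (b : ℚ) = WithZero.exp (-1 : ℤ) := by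
        have hab' : (3 : ℚ) = (a : ℚ) * (b : ℚ) :=
          congrArg (fun x : (v.valuation ℚ).integer => (x : ℚ)) hab
        rw [← map_mul, ← hval3, ← hab']
      by_contra hcon
      rw [not_or] at hcon
      have ha1 : v.valuation ℚ (a : ℚ) < 1 := lt_of_le_of_ne ha hcon.1
      have hb1 : v.valuation ℚ (b : ℚ) < 1 := lt_of_le_of_ne hb hcon.2
      have hne : v.valuation ℚ (a : ℚ) * v.valuation ℚ (b : ℚ) ≠ 0 := by
        rw [habv]; exact WithZero.exp_ne_zero
      have hane := left_ne_zero_of_mul hne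
      have hbne := right_ne_zero_of_mul hne
      have hla := (WithZero.log_lt_log hane one_ne_zero).2 ha1
      have hlb := (WithZero.log_lt_log hbne one_ne_zero).2 hb1
      have hlog := congrArg WithZero.log habv
      rw [WithZero.log_mul hane hbne, WithZero.log_exp] at hlog
      rw [WithZero.log_one] at hla hlb
      omega
  · rw [hI.isUnit_iff_valuation_eq_one]
    exact_mod_cast hunit 2 (by norm_num)
  · rw [hI.isUnit_iff_valuation_eq_one]
    exact_mod_cast hunit 41 (by norm_num)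

end Pool.Agent.Lib.MP_55c1e7_ag.CK
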