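import Pool.Agent.Lib.MP_55c1e7_ag.CK.Stub
import Pool.Agent.Lib.MP_55c1e7_ag.CK.DomT
import Pool.Agent.Lib.MP_55c1e7_ag.CK.Val

/-!
Box C: the varieties `X` and `Y`, the smooth projective model of `X`.
-/

set_option autoImplicit false
set_option linter.unusedSectionVars false
set_option linter.unusedVariables false

open CategoryTheory CategoryTheory.Limits AlgebraicGeometry TensorProduct MP55c1e7.CG

namespace Pool.Agent.Lib.MP_55c1e7_ag.CK

section main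

variable {k K : Type} [Field k] [Field K] [Algebra k K] (P : Pt k K)

theorem smoothProjective_of_charts (h2 : (2 : k) ≠ 0) (hP : P.Gen) {ι γ : Type} [Finite ι]
    [Nonempty γ] (h : ι → K) (hh : ∀ i, h i ≠ 0) (I : γ → ι)
    (hsm : ∀ c, Algebra.Smooth k (chart k h (I c)))
    (hcov : ∀ i, Ideal.span (Set.range fun c => chartElt k h i (I c)) = ⊤) :
    BadRed.IsSmoothProjectiveVariety (PM.toSpec k h) := by
  obtain ⟨c⟩ := pm_sub k h hh I hcov
  have : Nonempty ι := ⟨I (Classical.arbitrary γ)⟩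
  exact {
    smooth := c.smooth hsm
    projective := pm_projective k h
    geometricallyIntegral := c.geometricallyIntegral (by
      intro L _ _ i
      exact dom_tensor_sub h2 P hP L (chart k h (I i))) }

theorem X_smoothProjective (h2 : (2 : k) ≠ 0) (h3 : (3 : k) ≠ 0) (h41 : (41 : k) ≠ 0)
    (hP : P.Gen) : BadRed.IsSmoothProjectiveVariety (PM.toSpec k (hX P)) := by
  obtain ⟨I, h, h'⟩ := X_charts P h2 h3 h41 hP
  exact smoothProjective_of_charts P h2 hP (hX P) (hX_ne P) I h h'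

theorem Y_smoothProjective (h2 : (2 : k) ≠ 0) (h3 : (3 : k) ≠ 0) (h41 : (41 : k) ≠ 0)
    (hP : P.Gen) : BadRed.IsSmoothProjectiveVariety (PM.toSpec k (hY P)) := by
  obtain ⟨I, h, h'⟩ := Y_charts P h2 h3 h41 hP
  exact smoothProjective_of_charts P h2 hP (hY P) (hY_ne P) I h h'

/-- The reindexing of the product lists. -/
def eXX : ((Fin 4 × Fin 4 × Fin 4 × Fin 3 × Fin 5 × Fin 5) × Fin 4) ≃
    (((Fin 4 × Fin 4 × Fin 4 × Fin 5 × Fin 4) × Fin 3) × Fin 5) where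
  toFun := fun p => (((p.1.1, p.1.2.1, p.1.2.2.1, p.1.2.2.2.2.1, p.2), p.1.2.2.2.1),
    p.1.2.2.2.2.2)
  invFun := fun q => ((q.1.1.1, q.1.1.2.1, q.1.1.2.2.1, q.1.2, q.1.1.2.2.2.1, q.2),
    q.1.1.2.2.2.2)
  left_inv := fun _ => rfl
  right_inv := fun _ => rfl

theorem XX_iso_X (h3 : (3 : k) ≠ 0) :
    ∃ e : PM k (hXX P) ≅ PM k (hX P), e.hom ≫ PM.toSpec k (hX P) = PM.toSpec k (hXX P) := by
  have n3 := l3_ne P
  have n4 := l4_ne P
  obtain ⟨e1, he1⟩ := pm_mul_iso k (hXX P) (l4 (P.x 0) (P.x 1) (P.x 2)) (hXX_ne P) n4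
    (XX_prin P h3)
  obtain ⟨e2, he2⟩ := pm_mul_iso k (hX P) (l3 (P.x 0) (P.x 1) (P.x 2)) (hX_ne P) n3
    (X_prin P h3)
  obtain ⟨e3, he3⟩ := pm_congr_iso k
    (fun p : (Fin 4 × Fin 4 × Fin 4 × Fin 3 × Fin 5 × Fin 5) × Fin 4 =>
      hXX P p.1 * l4 (P.x 0) (P.x 1) (P.x 2) p.2)
    (fun p : ((Fin 4 × Fin 4 × Fin 4 × Fin 5 × Fin 4) × Fin 3) × Fin 5 =>
      hX P p.1 * l3 (P.x 0) (P.x 1) (P.x 2) p.2)
    (fun p => mul_ne_zero (hXX_ne P _) (n4 _)) (fun p => mul_ne_zero (hX_ne P _) (n3 _))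
    eXX (fun p => by
      obtain ⟨⟨a, b, c, d, e, f⟩, g⟩ := p
      simp only [hXX, hX, hZ, eXX, Equiv.coe_fn_mk]
      ring)
  refine ⟨e1 ≪≫ e3 ≪≫ e2.symm, ?_⟩
  rw [Iso.trans_hom, Iso.trans_hom, Iso.symm_hom, Category.assoc, Category.assoc, ← he2,
    Iso.inv_hom_id_assoc, he3, he1]

theorem X_hasGoodModel (O : Type) [CommRing O] [IsDomain O] [Algebra O k] [Algebra O K]
    [IsScalarTower O k K] [IsFractionRing O k] (h2 : IsUnit (2 : O)) (h41 : IsUnit (41 : O))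
    (h3 : (3 : k) ≠ 0) (hP : P.Gen) : BadRed.HasGoodModel O k (PM.toSpec k (hX P)) := by
  have hk : (2 : k) ≠ 0 := by
    have h0 := h2.map (algebraMap O k)
    rw [map_ofNat] at h0
    exact h0.ne_zero
  obtain ⟨I, h, h'⟩ := XX_charts P (IsFractionRing.injective O k) h2 h41 hk hP
  obtain ⟨c⟩ := pm_sub O (hXX P) (hXX_ne P) I h'
  obtain ⟨e1, he1⟩ := pm_baseChange O k (hXX P) (hXX_ne P)
  obtain ⟨e2, he2⟩ := XX_iso_X P h3
  refine ⟨PM O (hXX P), PM.toSpec O (hXX P), c.smooth h, pm_projective O (hXX P),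
    e1 ≪≫ e2, ?_⟩
  rw [Iso.trans_hom, Category.assoc, he2, he1]

end main

open NumberField IsDedekindDomain in
/-- Box C. -/
theorem boxC {K : Type} [Field K] [Algebra ℚ K] (P : Pt ℚ K) (hP : P.Gen)
    (v : HeightOneSpectrum (𝓞 ℚ)) (hfrac : IsFractionRing (v.valuation ℚ).integer ℚ)
    (hu2 : IsUnit (2 : (v.valuation ℚ).integer)) (hu41 : IsUnit (41 : (v.valuation ℚ).integer)) :
    BadRed.IsSmoothProjectiveVariety (PM.toSpec ℚ (hX P)) ∧
    BadRed.IsSmoothProjectiveVariety (PM.toSpec ℚ (hY P)) ∧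
    BadRed.HasGoodReduction v (PM.toSpec ℚ (hX P)) := by
  refine ⟨X_smoothProjective P (by norm_num) (by norm_num) (by norm_num) hP,
    Y_smoothProjective P (by norm_num) (by norm_num) (by norm_num) hP, ?_⟩
  exact X_hasGoodModel P (v.valuation ℚ).integer hu2 hu41 (by norm_num) hP

end Pool.Agent.Lib.MP_55c1e7_ag.CK
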