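import Mathlib

/-!
Smoothness from an affine cover.

`Smooth` is local on the source (`IsZariskiLocalAtSource`, `HasRingHomProperty.iff_of_source_openCover`): the
`j i` form an open cover of `X`, and `j i ≫ f = Spec.map (algebraMap R (A i))` is smooth
(`HasRingHomProperty.Spec_iff`; `RingHom.Smooth (algebraMap R A)` is `Algebra.Smooth R A`).
-/

set_option autoImplicit false
set_option linter.unusedSectionVars false
set_option linter.unusedVariables false

open CategoryTheory AlgebraicGeometry

namespace Pool.Agent.Lib.MP_55c1e7_ag.CK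

set_option backward.isDefEq.respectTransparency.types false in
theorem smooth_of_cover {R : Type} [CommRing R] {X : Scheme.{0}}
    (f : X ⟶ Spec (CommRingCat.of R)) {ι : Type} (A : ι → Type)
    [∀ i, CommRing (A i)] [∀ i, Algebra R (A i)] (j : ∀ i, Spec (CommRingCat.of (A i)) ⟶ X)
    [∀ i, IsOpenImmersion (j i)]
    (hj : ∀ i, j i ≫ f = Spec.map (CommRingCat.ofHom (algebraMap R (A i))))
    (hcov : ∀ x : X, ∃ i, x ∈ (j i).opensRange) (hsm : ∀ i, Algebra.Smooth R (A i)) :
    Smooth f := by
  let 𝒰 : X.OpenCover := Scheme.Cover.mkOfCovers ι (fun i => Spec (CommRingCat.of (A i))) j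
    (fun x => by
      obtain ⟨i, hi⟩ := hcov x
      obtain ⟨y, hy⟩ := hi
      exact ⟨i, y, hy⟩)
  rw [IsZariskiLocalAtSource.iff_of_openCover (P := @Smooth) 𝒰]
  intro i
  show Smooth (j i ≫ f)
  rw [hj i, HasRingHomProperty.Spec_iff (P := @Smooth)]
  exact (RingHom.smooth_algebraMap (R := R) (S := A i)).mpr (hsm i)

end Pool.Agent.Lib.MP_55c1e7_ag.CK
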