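import Pool.Agent.Lib.MP_55c1e7_ag.CK.Iso
import Pool.Agent.Lib.MP_55c1e7_ag.CK.Smc
import Pool.Agent.Lib.MP_55c1e7_ag.CK.Geom

/-!
Schemes with charts in a field `K`.
-/

set_option autoImplicit false
set_option linter.unusedSectionVars false
set_option linter.unusedVariables false

open CategoryTheory CategoryTheory.Limits AlgebraicGeometry

namespace Pool.Agent.Lib.MP_55c1e7_ag.CK

section rings

variable {R K : Type} [CommRing R] [Field K] [Algebra R K]

/-- The generic point of the spectrum of a subalgebra of `K`. -/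
noncomputable def gen (A : Subalgebra R K) :
    Spec (CommRingCat.of K) ⟶ Spec (CommRingCat.of A) :=
  Spec.map (CommRingCat.ofHom A.val.toRingHom)

/-- The structure morphism of the spectrum of a subalgebra of `K`. -/
noncomputable def str (A : Subalgebra R K) :
    Spec (CommRingCat.of A) ⟶ Spec (CommRingCat.of R) :=
  Spec.map (CommRingCat.ofHom (algebraMap R A))

/-- The morphism of an inclusion. -/
noncomputable def incl {A B : Subalgebra R K} (h : A ≤ B) :
    Spec (CommRingCat.of B) ⟶ Spec (CommRingCat.of A) :=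
  Spec.map (CommRingCat.ofHom (Subalgebra.inclusion h).toRingHom)

theorem gen_incl {A B : Subalgebra R K} (h : A ≤ B) : gen B ≫ incl h = gen A := by
  unfold gen incl
  rw [← Spec.map_comp]
  rfl

theorem incl_str {A B : Subalgebra R K} (h : A ≤ B) : incl h ≫ str A = str B := by
  unfold str incl
  rw [← Spec.map_comp]
  rfl

instance (A : Subalgebra R K) : IsDominant (gen A) := by
  constructor
  change DenseRange (PrimeSpectrum.comap A.val.toRingHom)
  rw [PrimeSpectrum.denseRange_comap_iff_ker_le_nilRadical]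
  have h : RingHom.ker A.val.toRingHom = ⊥ :=
    (RingHom.injective_iff_ker_eq_bot _).1 Subtype.val_injective
  rw [h]
  exact bot_le

/-- The localisation of `A` at `s`. -/
def locA (A : Subalgebra R K) (s : K) (hs : s ∈ A) : Subalgebra R K where
  carrier := {x | ∃ n : ℕ, s ^ n * x ∈ A}
  mul_mem' := by
    rintro a b ⟨n, hn⟩ ⟨m, hm⟩
    refine ⟨n + m, ?_⟩
    have h : s ^ (n + m) * (a * b) = (s ^ n * a) * (s ^ m * b) := by ring
    rw [h]
    exact mul_mem hn hm
  one_mem' := ⟨0, by simp⟩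
  add_mem' := by
    rintro a b ⟨n, hn⟩ ⟨m, hm⟩
    refine ⟨n + m, ?_⟩
    have h : s ^ (n + m) * (a + b) = s ^ m * (s ^ n * a) + s ^ n * (s ^ m * b) := by ring
    rw [h]
    exact add_mem (mul_mem (pow_mem hs m) hn) (mul_mem (pow_mem hs n) hm)
  zero_mem' := ⟨0, by simp⟩
  algebraMap_mem' := fun r => ⟨0, by simp⟩

theorem mem_locA {A : Subalgebra R K} {s : K} (hs : s ∈ A) {x : K} :
    x ∈ locA A s hs ↔ ∃ n : ℕ, s ^ n * x ∈ A := Iff.rfl

theorem le_locA {A : Subalgebra R K} {s : K} (hs : s ∈ A) : A ≤ locA A s hs :=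
  fun x hx => ⟨0, by simpa using hx⟩

theorem locA_le_locA {A B : Subalgebra R K} {s : K} (hs : s ∈ A) (h : A ≤ B) :
    locA A s hs ≤ locA B s (h hs) := fun x ⟨n, hn⟩ => ⟨n, h hn⟩

theorem locA_le {A B : Subalgebra R K} {s : K} (hs : s ∈ A) (hsB : s ∈ B)
    (h : B ≤ locA A s hs) : locA B s hsB ≤ locA A s hs := by
  rintro x ⟨n, hn⟩
  obtain ⟨m, hm⟩ := h hn
  exact ⟨m + n, by rw [pow_add, mul_assoc]; exact hm⟩

theorem isLocalization_locA {A : Subalgebra R K} {s : K} (hs : s ∈ A) (h0 : s ≠ 0) :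
    letI := (Subalgebra.inclusion (le_locA hs)).toRingHom.toAlgebra
    IsLocalization.Away (⟨s, hs⟩ : A) (locA A s hs) := by
  let _ := (Subalgebra.inclusion (le_locA hs)).toRingHom.toAlgebra
  have hinj : Function.Injective (algebraMap A (locA A s hs)) :=
    Subalgebra.inclusion_injective (le_locA hs)
  have hval : ∀ a : A, ((algebraMap A (locA A s hs) a : locA A s hs) : K) = (a : K) :=
    fun a => rfl
  have hsinv : s⁻¹ ∈ locA A s hs := ⟨1, by rw [pow_one, mul_inv_cancel₀ h0]; exact one_mem A⟩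
  constructor
  constructor
  · rintro ⟨_, n, rfl⟩
    rw [map_pow]
    refine IsUnit.pow n ?_
    refine IsUnit.of_mul_eq_one ⟨s⁻¹, hsinv⟩ ?_
    apply Subtype.ext
    change s * s⁻¹ = 1
    exact mul_inv_cancel₀ h0
  · rintro ⟨x, n, hn⟩
    refine ⟨(⟨s ^ n * x, hn⟩, ⟨⟨s, hs⟩ ^ n, n, rfl⟩), ?_⟩
    apply Subtype.ext
    change x * s ^ n = s ^ n * x
    ring
  · intro x y hxy
    exact ⟨1, by rw [hinj hxy]⟩

theorem isOpenImmersion_incl {A : Subalgebra R K} {s : K} (hs : s ∈ A) (h0 : s ≠ 0) :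
    IsOpenImmersion (incl (le_locA hs)) := by
  let _ := (Subalgebra.inclusion (le_locA hs)).toRingHom.toAlgebra
  have := isLocalization_locA hs h0
  exact IsOpenImmersion.of_isLocalization (S := locA A s hs) (⟨s, hs⟩ : A)

theorem mem_range_incl {A : Subalgebra R K} {s : K} (hs : s ∈ A) (h0 : s ≠ 0)
    (p : Spec (CommRingCat.of A)) (hp : (⟨s, hs⟩ : A) ∉ p.asIdeal) :
    ∃ q : Spec (CommRingCat.of (locA A s hs)), incl (le_locA hs) q = p := by
  let _ := (Subalgebra.inclusion (le_locA hs)).toRingHom.toAlgebra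
  have := isLocalization_locA hs h0
  have h := PrimeSpectrum.localization_away_comap_range (locA A s hs) (⟨s, hs⟩ : A)
  have h1 : p ∈ Set.range (PrimeSpectrum.comap (algebraMap A (locA A s hs))) := by
    rw [h]
    exact hp
  obtain ⟨q, hq⟩ := h1
  exact ⟨q, hq⟩

end rings

section charts

variable {R K : Type} [CommRing R] [Field K] [Algebra R K]

theorem mem_range_of_le {X : Scheme.{0}} (f : X ⟶ Spec (CommRingCat.of R)) [IsSeparated f]
    {B L : Subalgebra R K} (j : Spec (CommRingCat.of B) ⟶ X) (j' : Spec (CommRingCat.of L) ⟶ X)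
    (hj : j ≫ f = str B) (hj' : j' ≫ f = str L) (hgen : gen B ≫ j = gen L ≫ j') {s : K}
    (hs : s ∈ B) (h0 : s ≠ 0) (hL : L ≤ locA B s hs) (p : Spec (CommRingCat.of B))
    (hp : (⟨s, hs⟩ : B) ∉ p.asIdeal) : ∃ q, j' q = j p := by
  have h1 : incl (le_locA hs) ≫ j = incl hL ≫ j' := by
    refine ext_of_isDominant_of_isSeparated f ?_ (gen (locA B s hs)) ?_
    · rw [Category.assoc, Category.assoc, hj, hj', incl_str, incl_str]
    · rw [← Category.assoc, ← Category.assoc, gen_incl, gen_incl, hgen]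
  obtain ⟨q, rfl⟩ := mem_range_incl hs h0 p hp
  refine ⟨incl hL q, ?_⟩
  rw [← Scheme.Hom.comp_apply, ← Scheme.Hom.comp_apply, h1]

/-- Charts of a scheme over `Spec R` by subalgebras of `K`. -/
structure Charts {X : Scheme.{0}} (f : X ⟶ Spec (CommRingCat.of R)) {ι : Type}
    (A : ι → Subalgebra R K) where
  j : ∀ i, Spec (CommRingCat.of (A i)) ⟶ X
  isOpen : ∀ i, IsOpenImmersion (j i)
  comp : ∀ i, j i ≫ f = str (A i)
  gen_eq : ∀ i i', gen (A i) ≫ j i = gen (A i') ≫ j i'
  cover : ∀ x : X, ∃ i, ∃ y, j i y = x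

attribute [instance] Charts.isOpen

namespace Charts

variable {X : Scheme.{0}} {f : X ⟶ Spec (CommRingCat.of R)} {ι : Type}
  {A : ι → Subalgebra R K} (c : Charts f A)

include c

theorem mem_opensRange (x : X) : ∃ i, x ∈ (c.j i).opensRange := by
  obtain ⟨i, y, rfl⟩ := c.cover x
  exact ⟨i, y, rfl⟩

theorem isReduced : IsReduced X := by
  let 𝒰 : X.OpenCover := Scheme.Cover.mkOfCovers ι (fun i => Spec (CommRingCat.of (A i))) c.j
    (fun x => c.cover x)
  have h : ∀ i, IsReduced (𝒰.X i) := by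
    intro i
    change IsReduced (Spec (CommRingCat.of (A i)))
    infer_instance
  exact IsReduced.of_openCover (𝒰 := 𝒰)

theorem mem_of_isOpen {U : Set X} (hU : IsOpen U) (hne : U.Nonempty) (i : ι)
    (pt : Spec (CommRingCat.of K)) : c.j i (gen (A i) pt) ∈ U := by
  obtain ⟨x, hx⟩ := hne
  obtain ⟨i', y, rfl⟩ := c.cover x
  have h1 : IsOpen ((c.j i') ⁻¹' U) := hU.preimage (c.j i').continuous
  obtain ⟨pt', hpt'⟩ := (gen (A i')).denseRange.exists_mem_open h1 ⟨y, hx⟩
  have h2 : pt' = pt := Subsingleton.elim (α := PrimeSpectrum K) pt' pt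
  subst h2
  have h3 : c.j i (gen (A i) pt') = c.j i' (gen (A i') pt') := by
    rw [← Scheme.Hom.comp_apply, ← Scheme.Hom.comp_apply, c.gen_eq i i']
  rw [h3]
  exact hpt'

theorem isIntegral [Nonempty ι] : IsIntegral X := by
  obtain ⟨i₀⟩ := (inferInstance : Nonempty ι)
  let pt : Spec (CommRingCat.of K) := (⊥ : PrimeSpectrum K)
  have : Nonempty X := ⟨c.j i₀ (gen (A i₀) pt)⟩
  have h1 : IrreducibleSpace X := by
    have h2 : PreirreducibleSpace X := by
      constructor
      rintro U V hU hV ⟨x, -, hx⟩ ⟨y, -, hy⟩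
      exact ⟨_, trivial, c.mem_of_isOpen hU ⟨x, hx⟩ i₀ pt, c.mem_of_isOpen hV ⟨y, hy⟩ i₀ pt⟩
    exact { toNonempty := this }
  have h2 := c.isReduced
  exact isIntegral_of_irreducibleSpace_of_isReduced X

theorem smooth (hsm : ∀ i, Algebra.Smooth R (A i)) : Smooth f :=
  smooth_of_cover f (fun i => A i) c.j c.comp c.mem_opensRange hsm

/-- A subfamily which covers. -/
def sub {γ : Type} (I : γ → ι) (h : ∀ x : X, ∃ g, ∃ y, c.j (I g) y = x) :
    Charts f (fun g => A (I g)) where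
  j := fun g => c.j (I g)
  isOpen := fun g => c.isOpen (I g)
  comp := fun g => c.comp (I g)
  gen_eq := fun g g' => c.gen_eq (I g) (I g')
  cover := h

theorem cover_sub [IsSeparated f] {γ : Type} (I : γ → ι) (s : ι → γ → K)
    (hs : ∀ i g, s i g ∈ A i)
    (h1 : ∀ i, Ideal.span (Set.range fun g => (⟨s i g, hs i g⟩ : A i)) = ⊤)
    (h2 : ∀ i g, s i g ≠ 0 → A (I g) ≤ locA (A i) (s i g) (hs i g)) (x : X) :
    ∃ g, ∃ y, c.j (I g) y = x := by
  obtain ⟨i, y, rfl⟩ := c.cover x
  have h3 : ∃ g, (⟨s i g, hs i g⟩ : A i) ∉ y.asIdeal := by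
    by_contra hcon
    push Not at hcon
    have h4 : Ideal.span (Set.range fun g => (⟨s i g, hs i g⟩ : A i)) ≤ y.asIdeal := by
      rw [Ideal.span_le]
      rintro _ ⟨g, rfl⟩
      exact hcon g
    rw [h1 i] at h4
    exact y.isPrime.ne_top (top_le_iff.1 h4)
  obtain ⟨g, hg⟩ := h3
  have h0 : s i g ≠ 0 := by
    intro h0
    apply hg
    have h5 : (⟨s i g, hs i g⟩ : A i) = 0 := Subtype.ext h0
    rw [h5]
    exact y.asIdeal.zero_mem
  obtain ⟨q, hq⟩ := mem_range_of_le f (c.j i) (c.j (I g)) (c.comp i) (c.comp (I g))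
    (c.gen_eq i (I g)) (hs i g) h0 (h2 i g h0) y hg
  exact ⟨g, q, hq⟩

end Charts

theorem Charts.geometricallyIntegral {k K : Type} [Field k] [Field K] [Algebra k K] {X : Scheme.{0}}
    {f : X ⟶ Spec (CommRingCat.of k)} {ι : Type} [Nonempty ι] {A : ι → Subalgebra k K}
    (c : Charts f A)
    (hdom : ∀ (L : Type) [Field L] [Algebra k L] (i : ι), IsDomain (TensorProduct k L (A i))) :
    GeometricallyIntegral f := by
  refine geomIntegral_of_cover f (fun i => A i) c.j c.comp c.mem_opensRange ?_ hdom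
  intro i i' h
  let pt : Spec (CommRingCat.of K) := (⊥ : PrimeSpectrum K)
  have h1 : ∀ i, ((c.j i).opensRange : Set X).Nonempty := fun i =>
    ⟨c.j i (gen (A i) pt), gen (A i) pt, rfl⟩
  have h2 : c.j i (gen (A i) pt) ∈ (c.j i).opensRange ⊓ (c.j i').opensRange :=
    ⟨⟨_, rfl⟩, c.mem_of_isOpen (c.j i').opensRange.isOpen (h1 i') i pt⟩
  rw [h] at h2
  exact h2

end charts

end Pool.Agent.Lib.MP_55c1e7_ag.CK
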