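import Pool.Agent.Lib.MP_55c1e7_ag.CK.Defs

/-!
The entries of the lists are nonzero.
-/

set_option autoImplicit false
set_option linter.unusedSectionVars false
set_option linter.unusedVariables false

namespace Pool.Agent.Lib.MP_55c1e7_ag.CK

variable {k K : Type} [Field k] [Field K] [Algebra k K] (P : Pt k K)

theorem Pt.transc (i : Fin 3) : Transcendental k (P.x i) := P.ind.transcendental i

theorem Pt.x_ne (i : Fin 3) : P.x i ≠ 0 := by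
  intro h
  apply P.transc i
  rw [h]
  exact isAlgebraic_zero

theorem Pt.x3_ne (i : Fin 3) : P.x i - 3 ≠ 0 := by
  intro h
  apply P.transc i
  rw [sub_eq_zero.1 h]
  have h3 : (3 : K) = algebraMap k K 3 := (map_ofNat _ 3).symm
  rw [h3]
  exact isAlgebraic_algebraMap _

theorem Pt.w_ne (i : Fin 3) : P.w i ≠ 0 := by
  intro h
  apply P.transc i
  have h1 := P.sq i
  rw [h] at h1
  refine ⟨Polynomial.X ^ 4 + 1, ?_, ?_⟩
  · have := (Polynomial.monic_X_pow_add_C (1 : k) (n := 4) (by norm_num)).ne_zero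
    simpa using this
  · simp only [map_add, map_pow, Polynomial.aeval_X, map_one]
    rw [← h1]
    ring

theorem lE_ne {x w : K} (hx : x ≠ 0) (hw : w ≠ 0) (i : Fin 4) : lE x w i ≠ 0 := by
  fin_cases i
  · exact one_ne_zero
  · exact hx
  · exact pow_ne_zero 2 hx
  · exact hw

theorem lyz_ne {y z : K} (hy : y ≠ 0) (hz : z ≠ 0) (i : Fin 3) : lyz y z i ≠ 0 := by
  fin_cases i
  · exact hy
  · exact hz
  · exact mul_ne_zero hy hz

theorem lxyz_ne {x y z : K} (hx : x ≠ 0) (hy : y ≠ 0) (hz : z ≠ 0) (i : Fin 5) :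
    lxyz x y z i ≠ 0 := by
  fin_cases i
  · exact mul_ne_zero hx hy
  · exact mul_ne_zero (mul_ne_zero hx hy) hz
  · exact mul_ne_zero hy hz
  · exact mul_ne_zero hx hz
  · exact hz

theorem l3_ne' {x y z : K} (hx : x - 3 ≠ 0) (hy : y ≠ 0) (hz : z ≠ 0) (i : Fin 5) :
    l3 x y z i ≠ 0 := by
  fin_cases i
  · exact mul_ne_zero hx hz
  · exact mul_ne_zero (mul_ne_zero hx hy) hz
  · exact mul_ne_zero hy hz
  · exact mul_ne_zero hx hy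
  · exact hy

theorem l4_ne' {x y z : K} (h0 : x ≠ 0) (hx : x - 3 ≠ 0) (hy : y ≠ 0) (hz : z ≠ 0) (i : Fin 4) :
    l4 x y z i ≠ 0 := by
  fin_cases i
  · exact mul_ne_zero hx hz
  · exact mul_ne_zero (mul_ne_zero hx hy) hz
  · exact mul_ne_zero h0 hy
  · exact mul_ne_zero (mul_ne_zero h0 hy) hz

theorem l3_ne (i) : l3 (P.x 0) (P.x 1) (P.x 2) i ≠ 0 :=
  l3_ne' (P.x3_ne 0) (P.x_ne 1) (P.x_ne 2) i

theorem l4_ne (i) : l4 (P.x 0) (P.x 1) (P.x 2) i ≠ 0 :=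
  l4_ne' (P.x_ne 0) (P.x3_ne 0) (P.x_ne 1) (P.x_ne 2) i

theorem hXX_ne (i) : hXX P i ≠ 0 :=
  mul_ne_zero (mul_ne_zero (mul_ne_zero (mul_ne_zero (mul_ne_zero
    (lE_ne (P.x_ne 0) (P.w_ne 0) _) (lE_ne (P.x_ne 1) (P.w_ne 1) _))
    (lE_ne (P.x_ne 2) (P.w_ne 2) _)) (lyz_ne (P.x_ne 1) (P.x_ne 2) _))
    (lxyz_ne (P.x_ne 0) (P.x_ne 1) (P.x_ne 2) _)) (l3_ne P _)

theorem hZ_ne (i) : hZ P i ≠ 0 :=
  mul_ne_zero (mul_ne_zero (mul_ne_zero (mul_ne_zero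
    (lE_ne (P.x_ne 0) (P.w_ne 0) _) (lE_ne (P.x_ne 1) (P.w_ne 1) _))
    (lE_ne (P.x_ne 2) (P.w_ne 2) _))
    (lxyz_ne (P.x_ne 0) (P.x_ne 1) (P.x_ne 2) _)) (l4_ne P _)

theorem hX_ne (i) : hX P i ≠ 0 :=
  mul_ne_zero (hZ_ne P _) (lyz_ne (P.x_ne 1) (P.x_ne 2) _)

theorem hY_ne (i) : hY P i ≠ 0 :=
  mul_ne_zero (hZ_ne P _) (lyz_ne (P.x_ne 0) (P.x_ne 2) _)

end Pool.Agent.Lib.MP_55c1e7_ag.CK
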