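import Pool.Agent.Lib.MP_55c1e7_ag.CK.PMc

/-!
Comparison of projective models, with a covering family.
-/

set_option autoImplicit false
set_option linter.unusedSectionVars false
set_option linter.unusedVariables false

open CategoryTheory CategoryTheory.Limits AlgebraicGeometry TensorProduct MP55c1e7.CG

namespace Pool.Agent.Lib.MP_55c1e7_ag.CK

variable (R : Type) {K : Type} [CommRing R] [Field K] [Algebra R K] {ι κ : Type}

theorem chart_le_chart_mul (h : ι → K) (g : κ → K) (hh : ∀ i, h i ≠ 0) (hg : ∀ b, g b ≠ 0)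
    (i : ι) (b : κ) :
    chart R h i ≤ chart R (fun p : ι × κ => h p.1 * g p.2) (i, b) := by
  change Algebra.adjoin R _ ≤ _
  rw [Algebra.adjoin_le_iff]
  rintro _ ⟨a, rfl⟩
  refine Algebra.subset_adjoin ⟨(a, b), ?_⟩
  have := hh i
  have := hg b
  change (h a * g b) / (h i * g b) = h a / h i
  field_simp

theorem span_mul (h : ι → K) (g : κ → K) (hh : ∀ i, h i ≠ 0) (hg : ∀ b, g b ≠ 0) {γ : Type}
    (I : γ → ι) (hI : ∀ i, Ideal.span (Set.range fun c => chartElt R h i (I c)) = ⊤)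
    (p : ι × κ) :
    Ideal.span (Set.range fun c : γ × κ =>
      chartElt R (fun p : ι × κ => h p.1 * g p.2) p (I c.1, c.2)) = ⊤ := by
  obtain ⟨i, b⟩ := p
  have h1 := congrArg (Ideal.map (Subalgebra.inclusion
    (chart_le_chart_mul R h g hh hg i b)).toRingHom) (hI i)
  rw [Ideal.map_top, Ideal.map_span] at h1
  rw [eq_top_iff, ← h1, Ideal.span_le]
  rintro _ ⟨_, ⟨c, rfl⟩, rfl⟩
  refine Ideal.subset_span ⟨(c, b), ?_⟩
  apply Subtype.ext
  change (h (I c) * g b) / (h i * g b) = h (I c) / h i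
  have := hh i
  have := hg b
  field_simp

theorem pm_mul_iso' [Fintype κ] (h : ι → K) (g : κ → K) (hh : ∀ i, h i ≠ 0)
    (hg : ∀ b, g b ≠ 0) {γ : Type} (I : γ → ι)
    (hI : ∀ i, Ideal.span (Set.range fun c => chartElt R h i (I c)) = ⊤)
    [IsSeparated (PM.toSpec R h)] [IsSeparated (PM.toSpec R (fun p : ι × κ => h p.1 * g p.2))]
    (hp : ∀ c, Prin R h g (I c)) :
    ∃ e : PM R h ≅ PM R (fun p : ι × κ => h p.1 * g p.2),
      e.hom ≫ PM.toSpec R (fun p : ι × κ => h p.1 * g p.2) = PM.toSpec R h := by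
  choose n hn hn1 using hp
  have hhg : ∀ p : ι × κ, h p.1 * g p.2 ≠ 0 := fun p => mul_ne_zero (hh _) (hg _)
  obtain ⟨c⟩ := pm_sub R h hh I hI
  obtain ⟨d⟩ := pm_sub R (fun p : ι × κ => h p.1 * g p.2) hhg (fun c : γ × κ => (I c.1, c.2))
    (span_mul R h g hh hg I hI)
  refine c.iso_of_inv d (fun i b => chart_le_chart_mul R h g hh hg (I i) b)
    (fun i m => n i m * g m) (fun i m => hn i m m) hn1 ?_
  intro i m hm
  change Algebra.adjoin R _ ≤ _
  rw [Algebra.adjoin_le_iff]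
  rintro _ ⟨⟨a, b⟩, rfl⟩
  refine ⟨1, ?_⟩
  have h1 : (n i m * g m) ^ 1 * ((h a * g b) / (h (I i) * g m)) =
      (h a / h (I i)) * (n i m * g b) := by
    have := hh (I i)
    have := hg m
    field_simp
  change (n i m * g m) ^ 1 * ((h a * g b) / (h (I i) * g m)) ∈ chart R h (I i)
  rw [h1]
  exact mul_mem (Algebra.subset_adjoin ⟨a, rfl⟩) (hn i m b)

end Pool.Agent.Lib.MP_55c1e7_ag.CK
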