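import Pool.Agent.Lib.MP_55c1e7_ag.CK.Li

/-!
The presentation lemma.

* `inj_of_sq`: let `R = MvPolynomial (Fin 3) A ⧸ (W i ^ 2 - q i)`. Every element of `R` is a combination
  `∑ S, a_S * W^S` over the eight subsets `S` (these combinations form a subring containing the `W i`; or
  division by the monic polynomials). If it is mapped to zero then `∑ S, f a_S * ∏ i ∈ S, (u i * w i) = 0` with
  `f a_S ∈ F`, `u i ∈ F` nonzero, so `f a_S * ∏ u i = 0` by `Pt.li`, so `f a_S = 0`, `a_S = 0`.
-/

set_option autoImplicit false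
set_option linter.unusedSectionVars false
set_option linter.unusedVariables false

namespace Pool.Agent.Lib.MP_55c1e7_ag.CK

variable {k K : Type} [Field k] [Field K] [Algebra k K] (P : Pt k K)

/-- The ring `A[W 0, W 1, W 2] / (W i ^ 2 - q i)`. -/
abbrev Quad {A : Type} [CommRing A] (q : Fin 3 → A) : Type :=
  MvPolynomial (Fin 3) A ⧸ Ideal.span (Set.range fun i =>
    (MvPolynomial.X i ^ 2 - MvPolynomial.C (q i) : MvPolynomial (Fin 3) A))

/-- The homomorphism given by square roots of the `q i`. -/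
noncomputable def Quad.lift {A B : Type} [CommRing A] [CommRing B] {q : Fin 3 → A} (f : A →+* B)
    (W : Fin 3 → B) (hW : ∀ i, W i ^ 2 = f (q i)) : Quad q →+* B :=
  Ideal.Quotient.lift _ (MvPolynomial.eval₂Hom f W) (by
    intro a ha
    rw [← RingHom.mem_ker]
    refine (Ideal.span_le.mpr ?_) ha
    rintro _ ⟨i, rfl⟩
    show MvPolynomial.eval₂Hom f W _ = 0
    rw [map_sub, map_pow, MvPolynomial.eval₂Hom_X', MvPolynomial.eval₂Hom_C, hW, sub_self])

private theorem Pres_smul {A : Type} [CommRing A] (q : Fin 3 → A) (a : A) (r : Quad q) :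
    a • r = algebraMap A (Quad q) a * r :=
  Algebra.smul_def a r

private theorem Pres_sq {A : Type} [CommRing A] (q : Fin 3 → A) (i : Fin 3) :
    (Ideal.Quotient.mk _ (MvPolynomial.X i) : Quad q) ^ 2 = algebraMap A (Quad q) (q i) := by
  have h : (Ideal.Quotient.mk _ (MvPolynomial.X i ^ 2 - MvPolynomial.C (q i)) : Quad q) = 0 :=
    Ideal.Quotient.eq_zero_iff_mem.mpr (Ideal.subset_span ⟨i, rfl⟩)
  rw [map_sub, map_pow] at h
  exact sub_eq_zero.mp h

private theorem Pres_mul {A : Type} [CommRing A] (q : Fin 3 → A) (i : Fin 3) (y : Quad q)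
    (hy : y ∈ Submodule.span A (Set.range fun S : Finset (Fin 3) =>
      ∏ i ∈ S, (Ideal.Quotient.mk _ (MvPolynomial.X i) : Quad q))) :
    y * (Ideal.Quotient.mk _ (MvPolynomial.X i) : Quad q) ∈
      Submodule.span A (Set.range fun S : Finset (Fin 3) =>
        ∏ i ∈ S, (Ideal.Quotient.mk _ (MvPolynomial.X i) : Quad q)) := by
  induction hy using Submodule.span_induction with
  | mem y hy =>
    obtain ⟨S, rfl⟩ := hy
    by_cases hi : i ∈ S
    · have h1 : (∏ i ∈ S, (Ideal.Quotient.mk _ (MvPolynomial.X i) : Quad q)) *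
          (Ideal.Quotient.mk _ (MvPolynomial.X i) : Quad q) =
          q i • ∏ i ∈ S.erase i, (Ideal.Quotient.mk _ (MvPolynomial.X i) : Quad q) := by
        rw [← Finset.mul_prod_erase S _ hi, Pres_smul, ← Pres_sq]
        ring
      show (∏ i ∈ S, (Ideal.Quotient.mk _ (MvPolynomial.X i) : Quad q)) * _ ∈ _
      rw [h1]
      exact Submodule.smul_mem _ _ (Submodule.subset_span ⟨S.erase i, rfl⟩)
    · have h1 : (∏ i ∈ S, (Ideal.Quotient.mk _ (MvPolynomial.X i) : Quad q)) *
          (Ideal.Quotient.mk _ (MvPolynomial.X i) : Quad q) =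
          ∏ i ∈ insert i S, (Ideal.Quotient.mk _ (MvPolynomial.X i) : Quad q) := by
        rw [Finset.prod_insert hi, mul_comm]
      show (∏ i ∈ S, (Ideal.Quotient.mk _ (MvPolynomial.X i) : Quad q)) * _ ∈ _
      rw [h1]
      exact Submodule.subset_span ⟨insert i S, rfl⟩
  | zero => rw [zero_mul]; exact Submodule.zero_mem _
  | add x y _ _ hx hy => rw [add_mul]; exact Submodule.add_mem _ hx hy
  | smul a x _ hx => rw [smul_mul_assoc]; exact Submodule.smul_mem _ _ hx

private theorem Pres_span {A : Type} [CommRing A] (q : Fin 3 → A) (r : Quad q) :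
    ∃ c : Finset (Fin 3) → A,
      ∑ S, c S • ∏ i ∈ S, (Ideal.Quotient.mk _ (MvPolynomial.X i) : Quad q) = r := by
  have h : r ∈ Submodule.span A (Set.range fun S : Finset (Fin 3) =>
      ∏ i ∈ S, (Ideal.Quotient.mk _ (MvPolynomial.X i) : Quad q)) := by
    obtain ⟨p, rfl⟩ := Ideal.Quotient.mk_surjective r
    induction p using MvPolynomial.induction_on with
    | C a =>
      have h1 : (Ideal.Quotient.mk _ (MvPolynomial.C a) : Quad q) =
          a • ∏ i ∈ (∅ : Finset (Fin 3)), (Ideal.Quotient.mk _ (MvPolynomial.X i) : Quad q) := by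
        rw [Finset.prod_empty, Pres_smul, mul_one]
        rfl
      rw [h1]
      exact Submodule.smul_mem _ _ (Submodule.subset_span ⟨∅, rfl⟩)
    | add p p' hp hp' => rw [map_add]; exact Submodule.add_mem _ hp hp'
    | mul_X p i hp => rw [map_mul]; exact Pres_mul q i _ hp
  exact (Submodule.mem_span_range_iff_exists_fun A).mp h

theorem inj_of_sq (h2 : (2 : k) ≠ 0) {A : Type} [CommRing A] (f : A →+* K)
    (hf : Function.Injective f) (hfF : ∀ a, f a ∈ P.F) (q : Fin 3 → A) (W : Fin 3 → K)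
    (hW : ∀ i, W i ^ 2 = f (q i)) (hWw : ∀ i, ∃ u ∈ P.F, u ≠ 0 ∧ W i = u * P.w i) :
    Function.Injective (Quad.lift f W hW) := by
  rw [injective_iff_map_eq_zero]
  intro r hr
  obtain ⟨c, rfl⟩ := Pres_span q r
  choose u huF hu0 hu using hWw
  have h1 : ∀ S : Finset (Fin 3), Quad.lift f W hW
      (c S • ∏ i ∈ S, (Ideal.Quotient.mk _ (MvPolynomial.X i) : Quad q)) =
      (⟨f (c S), hfF (c S)⟩ * ∏ i ∈ S, ⟨u i, huF i⟩ : P.F) • ∏ i ∈ S, P.w i := by
    intro S
    have h3 : Quad.lift f W hW (algebraMap A (Quad q) (c S)) = f (c S) := by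
      show MvPolynomial.eval₂Hom f W (MvPolynomial.C (c S)) = f (c S)
      rw [MvPolynomial.eval₂Hom_C]
    have h4 : ∀ i, Quad.lift f W hW (Ideal.Quotient.mk _ (MvPolynomial.X i) : Quad q) = W i := by
      intro i
      show MvPolynomial.eval₂Hom f W (MvPolynomial.X i) = W i
      rw [MvPolynomial.eval₂Hom_X']
    rw [Pres_smul, map_mul, h3, map_prod, Algebra.smul_def]
    simp only [h4, hu, Finset.prod_mul_distrib, map_mul, map_prod]
    rw [mul_assoc]
    rfl
  rw [map_sum] at hr
  simp only [h1] at hr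
  have h5 := (Fintype.linearIndependent_iff.mp (P.li h2)) _ hr
  have h6 : ∀ S, c S = 0 := by
    intro S
    have h7 := congrArg (algebraMap P.F K) (h5 S)
    rw [map_mul, map_prod, map_zero] at h7
    have h8 : f (c S) * ∏ i ∈ S, u i = 0 := h7
    have h10 : ∏ i ∈ S, u i ≠ 0 := Finset.prod_ne_zero_iff.mpr fun i _ => hu0 i
    have h11 : f (c S) = 0 := (mul_eq_zero.mp h8).resolve_right h10
    exact hf (h11.trans (map_zero f).symm)
  simp only [h6, zero_smul, Finset.sum_const_zero]

end Pool.Agent.Lib.MP_55c1e7_ag.CK
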