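import Pool.Agent.Lib.MP_55c1e7_ag.CK.Defs

/-!
The products of the polynomials `X i ^ 4 + 1` are not squares.

* `quartic_not_sq`: if `X ^ 4 + 1 = h ^ 2` in `k[X]` then `4 X ^ 3 = 2 h h'` (derivative), so `h` divides
  `X * (4 X ^ 3) - 4 * (X ^ 4 + 1) = -4`, a unit; so `h` is a unit (constant) and `h ^ 2` has degree `0`.
* `prod_not_sq`: let `S` be nonempty, `i ∈ S`. If the product is a square in the fraction field
  then it is a square `h ^ 2` of a polynomial `h` (the ring is a UFD, hence integrally closed: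
  `f ^ 2 ∈ A` implies `f ∈ A`, `IsIntegrallyClosed.exists_algebraMap_eq_of_pow_mem`-like). Apply the
  homomorphism `MvPolynomial.aeval (fun j => if j = i then X else 0) : MvPolynomial (Fin 3) k → k[X]`: the
  product becomes `X ^ 4 + 1` (the other factors become `0 ^ 4 + 1 = 1`): contradiction to
  `quartic_not_sq`.
-/

set_option autoImplicit false
set_option linter.unusedSectionVars false
set_option linter.unusedVariables false

namespace Pool.Agent.Lib.MP_55c1e7_ag.CK

theorem quartic_not_sq {k : Type} [Field k] (h2 : (2 : k) ≠ 0) (h : Polynomial k) :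
    h ^ 2 ≠ Polynomial.X ^ 4 + 1 := by
  intro e
  have hd : 2 * h * Polynomial.derivative h = 4 * Polynomial.X ^ 3 := by
    have h1 := congrArg Polynomial.derivative e
    have e1 : Polynomial.derivative (h ^ 2) = 2 * h * Polynomial.derivative h := by
      rw [sq, Polynomial.derivative_mul]; ring
    have e2 : Polynomial.derivative (Polynomial.X ^ 4 + 1 : Polynomial k) =
        4 * Polynomial.X ^ 3 := by
      rw [Polynomial.derivative_add, Polynomial.derivative_one, add_zero,
        Polynomial.derivative_X_pow, Polynomial.C_eq_natCast]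
      norm_num
    rw [e1, e2] at h1
    exact h1
  have hdvd : h ∣ (-4 : Polynomial k) := by
    refine ⟨Polynomial.X * (2 * Polynomial.derivative h) - 4 * h, ?_⟩
    have e3 : h * (Polynomial.X * (2 * Polynomial.derivative h) - 4 * h) =
        Polynomial.X * (2 * h * Polynomial.derivative h) - 4 * h ^ 2 := by ring
    rw [e3, hd, e]
    ring
  have h4 : (-4 : k) ≠ 0 := by
    have e4 : (-4 : k) = -(2 * 2) := by norm_num
    rw [e4]
    exact neg_ne_zero.mpr (mul_ne_zero h2 h2)
  have hu4 : IsUnit (-4 : Polynomial k) := by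
    have e5 : (-4 : Polynomial k) = Polynomial.C (-4 : k) := by
      simp [map_ofNat]
    rw [e5]
    exact Polynomial.isUnit_C.mpr (isUnit_iff_ne_zero.mpr h4)
  have hu : IsUnit h := isUnit_of_dvd_unit hdvd hu4
  have h0 : h.natDegree = 0 := Polynomial.natDegree_eq_zero_of_isUnit hu
  have h5 : (h ^ 2).natDegree = 0 := by
    rw [Polynomial.natDegree_pow, h0]
  have h6 : (Polynomial.X ^ 4 + 1 : Polynomial k).natDegree = 4 := by
    compute_degree!
  rw [e, h6] at h5
  omega

theorem prod_not_sq {k : Type} [Field k] (h2 : (2 : k) ≠ 0) (S : Finset (Fin 3))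
    (hS : S.Nonempty) (f : FractionRing (MvPolynomial (Fin 3) k)) :
    f ^ 2 ≠ algebraMap (MvPolynomial (Fin 3) k) _ (∏ i ∈ S, (MvPolynomial.X i ^ 4 + 1)) := by
  classical
  intro e
  obtain ⟨i, hi⟩ := hS
  have hint : IsIntegral (MvPolynomial (Fin 3) k) (f ^ 2) := by
    rw [e]
    exact isIntegral_algebraMap
  obtain ⟨h, hh⟩ := IsIntegrallyClosed.exists_algebraMap_eq_of_isIntegral_pow
    (R := MvPolynomial (Fin 3) k) (by norm_num : 0 < 2) hint
  rw [← hh, ← map_pow] at e
  have e1 : h ^ 2 = ∏ i ∈ S, (MvPolynomial.X i ^ 4 + 1) :=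
    IsFractionRing.injective (MvPolynomial (Fin 3) k) _ e
  let φ : MvPolynomial (Fin 3) k →ₐ[k] Polynomial k :=
    MvPolynomial.aeval (fun j => if j = i then (Polynomial.X : Polynomial k) else 0)
  have e2 := congrArg φ e1
  rw [map_pow, map_prod] at e2
  have e3 : ∏ j ∈ S, φ (MvPolynomial.X j ^ 4 + 1) = Polynomial.X ^ 4 + 1 := by
    rw [Finset.prod_eq_single i]
    · simp [φ]
    · intro j _ hj
      simp [φ, hj]
    · intro hni
      exact absurd hi hni
  rw [e3] at e2
  exact quartic_not_sq h2 _ e2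

end Pool.Agent.Lib.MP_55c1e7_ag.CK
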