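import Pool.Agent.Lib.MP_55c1e7_ag.CK.PMd
import Pool.Agent.Lib.MP_55c1e7_ag.CK.Ne
import Pool.Agent.Lib.MP_55c1e7_ag.CG.Projective
import Pool.Agent.Lib.MP_55c1e7_ag.CH.Main

/-!
The explicit charts, in the form used in `Main`.
-/

set_option autoImplicit false
set_option linter.unusedSectionVars false
set_option linter.unusedVariables false

open CategoryTheory CategoryTheory.Limits AlgebraicGeometry TensorProduct MP55c1e7.CG

namespace Pool.Agent.Lib.MP_55c1e7_ag.CK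

instance pm_separated (R : Type) {K : Type} [CommRing R] [Field K] [Algebra R K] {ι : Type}
    (h : ι → K) : IsSeparated (PM.toSpec R h) := PM.isSeparated R h

theorem pm_projective (R : Type) {K : Type} [CommRing R] [Field K] [Algebra R K] {ι : Type}
    [Finite ι] [Nonempty ι] (h : ι → K) : BadRed.IsProjective (PM.toSpec R h) :=
  MP55c1e7.isProjective_PM R h

section charts

variable {k K : Type} [Field k] [Field K] [Algebra k K] (P : Pt k K)

theorem XX_charts {O : Type} [CommRing O] [Algebra O k] [Algebra O K] [IsScalarTower O k K]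
    (hinj : Function.Injective (algebraMap O k)) (h2 : IsUnit (2 : O)) (h41 : IsUnit (41 : O))
    (hk : (2 : k) ≠ 0)
    (hP : P.Gen) : ∃ I : Fin 14 → Fin 4 × Fin 4 × Fin 4 × Fin 3 × Fin 5 × Fin 5,
      (∀ c, Algebra.Smooth O (chart O (hXX P) (I c))) ∧
      ∀ i, Ideal.span (Set.range fun c => chartElt O (hXX P) i (I c)) = ⊤ := by
  obtain ⟨t, ht⟩ := h2.exists_right_inv
  obtain ⟨s, hs⟩ := h41.exists_right_inv
  exact ⟨CH.IXX, fun c => CH.XX_smooth P hk hP hinj t s ht hs c, fun i => CH.XX_cover P i⟩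

theorem X_charts (h2 : (2 : k) ≠ 0) (h3 : (3 : k) ≠ 0) (h41 : (41 : k) ≠ 0) (hP : P.Gen) :
    ∃ I : Fin 15 → (Fin 4 × Fin 4 × Fin 4 × Fin 5 × Fin 4) × Fin 3,
      (∀ c, Algebra.Smooth k (chart k (hX P) (I c))) ∧
      ∀ i, Ideal.span (Set.range fun c => chartElt k (hX P) i (I c)) = ⊤ :=
  ⟨CH.IX, fun c => CH.X_smooth P h2 h3 h41 hP c, fun i => CH.X_cover P h3 i⟩

theorem Y_charts (h2 : (2 : k) ≠ 0) (h3 : (3 : k) ≠ 0) (h41 : (41 : k) ≠ 0) (hP : P.Gen) :
    ∃ I : Fin 15 → (Fin 4 × Fin 4 × Fin 4 × Fin 5 × Fin 4) × Fin 3,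
      (∀ c, Algebra.Smooth k (chart k (hY P) (I c))) ∧
      ∀ i, Ideal.span (Set.range fun c => chartElt k (hY P) i (I c)) = ⊤ :=
  ⟨CH.IY, fun c => CH.Y_smooth P h2 h3 h41 hP c, fun i => CH.Y_cover P h3 i⟩

theorem XX_prin (h3 : (3 : k) ≠ 0) (i) :
    Prin k (hXX P) (l4 (P.x 0) (P.x 1) (P.x 2)) i := CH.XX_prin P h3 i

theorem X_prin (h3 : (3 : k) ≠ 0) (i) :
    Prin k (hX P) (l3 (P.x 0) (P.x 1) (P.x 2)) i := CH.X_prin P h3 i

end charts

end Pool.Agent.Lib.MP_55c1e7_ag.CK
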